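import Mathlib
import Pool.Agent.Y969.QM4
import Pool.Agent.Y938.Win.D
import Pool.Agent.X149.LimsupDim

/-!
# The circle problem along dilated sequences of radii

If the radii are `α T_k` with a given rapidly growing sequence `T_k`, or `α^k`, then the conjectured
bound `|P(R)| ≤ R^{1/2+ε}` holds for all large `k`, unless `α` is in a set of Hausdorff dimension
at most `1 - c ε log(1/ε)`.
-/

open MeasureTheory Filter Topology ENNReal Set

namespace Pool.Agent.Results.MP_fb29e9_nt.ExceptionalDilations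

/-- The error term, `P(R) = F(R) - πR²`. -/
noncomputable def P (R : ℝ) : ℝ :=
  (Nat.card {p : ℤ × ℤ // (p.1 : ℝ) ^ 2 + (p.2 : ℝ) ^ 2 ≤ R ^ 2} : ℝ) - Real.pi * R ^ 2

/-- The bad integers -/
def Bad (ε : ℝ) : Set ℕ := {n | ∃ y : ℝ, (n : ℝ) ≤ y ∧ y < n + 1 ∧
  y ^ ε < |Pool.Agent.H425R3.JL.Ec y|}

lemma mem_bad {ε R : ℝ} (hR : 0 < R) (h : R ^ (1 / 2 + ε) < |P R|) :
    ∃ n ∈ Bad (ε / 2), (n : ℝ) ≤ R ^ 2 ∧ R ^ 2 < n + 1 := by
  have hx : 0 < R ^ 2 := by positivity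
  refine ⟨⌊R ^ 2⌋₊, ⟨R ^ 2, Nat.floor_le hx.le, Nat.lt_floor_add_one _, ?_⟩,
    Nat.floor_le hx.le, Nat.lt_floor_add_one _⟩
  unfold Pool.Agent.H425R3.JL.Ec
  have e1 : (R ^ 2) ^ (1 / 4 : ℝ) = R ^ (1 / 2 : ℝ) := by
    rw [← Real.rpow_natCast, ← Real.rpow_mul hR.le]
    norm_num
  have e2 : (R ^ 2) ^ (ε / 2) = R ^ ε := by
    rw [← Real.rpow_natCast, ← Real.rpow_mul hR.le]
    congr 1
    push_cast
    ring
  have hp : 0 < R ^ (1 / 2 : ℝ) := by positivity
  rw [e1, e2, abs_div, abs_of_pos hp, lt_div_iff₀ hp, ← Real.rpow_add hR, add_comm ε]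
  exact h

lemma log_gap {α β b : ℝ} (hα : 0 < α) (hαβ : α ≤ β) (hβ : β ≤ b) :
    (β - α) / b ≤ Real.log β - Real.log α := by
  have hβ0 : 0 < β := hα.trans_le hαβ
  have h1 : Real.log (α / β) ≤ α / β - 1 := Real.log_le_sub_one_of_pos (by positivity)
  rw [Real.log_div hα.ne' hβ0.ne'] at h1
  have h2 : (β - α) / b ≤ (β - α) / β := div_le_div_of_nonneg_left (by linarith) hβ0 hβ
  have h3 : (β - α) / β = 1 - α / β := by field_simp
  linarith

/-- Dimension bound from the vanishing of the Hausdorff measures. -/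
lemma dim_le_of_null {A : Set ℝ} {d : ℝ} (hd : 0 ≤ d) (h : ∀ s : ℝ, d < s → μH[s] A = 0) :
    dimH A ≤ ENNReal.ofReal d := by
  apply ENNReal.le_of_forall_pos_le_add
  intro η hη _
  have h1 := h (d + η) (by have : (0 : ℝ) < η := hη; linarith)
  have h2 : dimH A ≤ ((d + η).toNNReal : ℝ≥0∞) := by
    apply dimH_le_of_hausdorffMeasure_ne_top
    have h3 : (((d + η).toNNReal : NNReal) : ℝ) = d + η := Real.coe_toNNReal _ (by positivity)
    rw [h3, h1]
    exact ENNReal.zero_ne_top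
  refine h2.trans (le_of_eq ?_)
  change ENNReal.ofReal (d + η) = _
  rw [ENNReal.ofReal_add hd (NNReal.coe_nonneg η), ENNReal.ofReal_coe_nnreal]

open Classical in
/-- The covering theorem for the circle problem: maps `R_k` from an interval to the radii. -/
lemma cover {ε C γ : ℝ} (hC : 0 ≤ C) (hγ : γ ≤ 1)
    (hcount : ∀ K : ℕ, 1 ≤ K →
      (((Finset.Ico K (2 * K)).filter (fun n => n ∈ Bad (ε / 2))).card : ℝ) ≤ C * (K : ℝ) ^ (1 - γ))
    {I : Set ℝ} (R : ℕ → ℝ → ℝ) {m : ℝ} (hm : 0 < m) (L : ℕ → ℝ) (hL : ∀ k, 1 ≤ L k)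
    (hLR : ∀ k, ∀ α ∈ I, L k ≤ R k α)
    (hexp : ∀ k, ∀ α ∈ I, ∀ β ∈ I, α ≤ β → m * (β - α) ≤ Real.log (R k β) - Real.log (R k α))
    {τ s : ℝ} (hτ : 0 ≤ τ) (hs : 1 - γ + τ / 2 < s) (hsum : Summable fun k => (L k) ^ (-τ)) :
    μH[s] {α | α ∈ I ∧ ∃ᶠ k in atTop, (R k α) ^ (1 / 2 + ε) < |P (R k α)|} = 0 := by
  have hnull := Pool.Agent.X149.LimsupDim.null (S := Bad (ε / 2)) hC hγ
    (by
      intro K hK
      convert hcount K hK)
    (I := I) (fun k α => (R k α) ^ 2) (m := 2 * m) (by positivity) (fun k => (L k) ^ 2)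
    (fun k => one_le_pow₀ (hL k))
    (fun k α hα => pow_le_pow_left₀ (by linarith [hL k]) (hLR k α hα) 2)
    (by
      intro k α hα β hβ hab
      have h1 := hexp k α hα β hβ hab
      rw [Real.log_pow, Real.log_pow]
      push_cast
      linarith)
    (σ := τ / 2) (s := s) (by linarith) (by linarith) (by linarith)
    (by
      refine hsum.congr fun k => ?_
      have hLk : 0 < L k := by linarith [hL k]
      rw [← Real.rpow_natCast (L k) 2, ← Real.rpow_mul hLk.le]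
      congr 1
      push_cast
      ring)
  refine measure_mono_null ?_ hnull
  rintro α ⟨hα, hfr⟩
  refine ⟨hα, hfr.mono fun k hk => ?_⟩
  have hR : 0 < R k α := by linarith [hL k, hLR k α hα]
  obtain ⟨n, hn, h1, h2⟩ := mem_bad hR hk
  exact ⟨n, hn, h1, h2⟩

lemma freq_shift {p : ℕ → Prop} (K : ℕ) (h : ∃ᶠ k in atTop, p k) : ∃ᶠ k in atTop, p (k + K) := by
  rw [Filter.frequently_atTop] at h ⊢
  intro a
  obtain ⟨b, hb, hp⟩ := h (a + K)
  refine ⟨b - K, by omega, ?_⟩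
  rw [Nat.sub_add_cancel (by omega)]
  exact hp

open Classical in
/-- Dilations -/
lemma dil {ε C γ : ℝ} (hC : 0 ≤ C) (hγ : γ ≤ 1)
    (hcount : ∀ K : ℕ, 1 ≤ K →
      (((Finset.Ico K (2 * K)).filter (fun n => n ∈ Bad (ε / 2))).card : ℝ) ≤ C * (K : ℝ) ^ (1 - γ))
    (T : ℕ → ℝ) (hT : ∀ k, 0 < T k) {τ : ℝ} (hτ : 0 < τ) (hs : Summable fun k => (T k) ^ (-τ)) :
    dimH {α : ℝ | 0 < α ∧ ∃ᶠ k in atTop, (α * T k) ^ (1 / 2 + ε) < |P (α * T k)|} ≤
      ENNReal.ofReal (1 - γ + τ / 2) := by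
  have hd0 : 0 ≤ 1 - γ + τ / 2 := by linarith
  -- the sequence tends to infinity
  have hTinf : ∀ b : ℝ, ∃ K : ℕ, ∀ k, K ≤ k → b ≤ T k := by
    intro b
    have h1 := hs.tendsto_atTop_zero
    have hb : 0 < (max b 1) ^ (-τ) := by positivity
    obtain ⟨K, hK⟩ := Filter.eventually_atTop.mp (h1.eventually_lt_const hb)
    refine ⟨K, fun k hk => ?_⟩
    have h2 := hK k hk
    by_contra hc
    push Not at hc
    have h3 : (max b 1) ^ (-τ) ≤ (T k) ^ (-τ) :=
      Real.rpow_le_rpow_of_nonpos (hT k) (hc.le.trans (le_max_left _ _)) (by linarith)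
    linarith
  have hcov : {α : ℝ | 0 < α ∧ ∃ᶠ k in atTop, (α * T k) ^ (1 / 2 + ε) < |P (α * T k)|} ⊆
      ⋃ j : ℕ, {α : ℝ | α ∈ Set.Icc (1 / ((j : ℝ) + 1)) (j + 1) ∧
        ∃ᶠ k in atTop, (α * T k) ^ (1 / 2 + ε) < |P (α * T k)|} := by
    rintro α ⟨hα, hfr⟩
    rw [Set.mem_iUnion]
    obtain ⟨j, hj⟩ := exists_nat_ge (max α (1 / α))
    refine ⟨j, ⟨?_, ?_⟩, hfr⟩
    · have h1 : 1 / α ≤ j := (le_max_right _ _).trans hj
      rw [div_le_iff₀ (by positivity)]
      rw [div_le_iff₀ hα] at h1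
      nlinarith
    · have h1 : α ≤ j := (le_max_left _ _).trans hj
      linarith
  apply dim_le_of_null hd0
  intro s hs1
  refine measure_mono_null hcov ?_
  rw [measure_iUnion_null_iff]
  intro j
  obtain ⟨K, hK⟩ := hTinf (j + 1)
  have hj0 : (0 : ℝ) < (j : ℝ) + 1 := by positivity
  have hnull := cover hC hγ hcount (I := Set.Icc (1 / ((j : ℝ) + 1)) (j + 1))
    (fun k α => α * T (k + K)) (m := 1 / ((j : ℝ) + 1)) (by positivity)
    (fun k => T (k + K) / ((j : ℝ) + 1))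
    (by
      intro k
      rw [one_le_div hj0]
      exact hK _ (by omega))
    (by
      intro k α hα
      have h1 := mul_le_mul_of_nonneg_right hα.1 (hT (k + K)).le
      calc T (k + K) / ((j : ℝ) + 1) = 1 / ((j : ℝ) + 1) * T (k + K) := by ring
        _ ≤ _ := h1)
    (by
      intro k α hα β hβ hab
      have hα0 : 0 < α := lt_of_lt_of_le (by positivity) hα.1
      have hβ0 : 0 < β := hα0.trans_le hab
      rw [Real.log_mul hβ0.ne' (hT _).ne', Real.log_mul hα0.ne' (hT _).ne']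
      have := log_gap hα0 hab hβ.2
      calc _ = (β - α) / ((j : ℝ) + 1) := by ring
        _ ≤ _ := by linarith)
    hτ.le hs1
    (by
      have h1 := ((summable_nat_add_iff K).mpr hs).mul_left (((j : ℝ) + 1) ^ τ)
      refine h1.congr fun k => ?_
      rw [Real.div_rpow (hT _).le hj0.le, Real.rpow_neg hj0.le, div_inv_eq_mul]
      ring)
  refine measure_mono_null ?_ hnull
  rintro α ⟨hα, hfr⟩
  exact ⟨hα, freq_shift K hfr⟩

open Classical in
/-- Powers -/
lemma pow {ε C γ : ℝ} (hC : 0 ≤ C) (hγ : γ ≤ 1)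
    (hcount : ∀ K : ℕ, 1 ≤ K →
      (((Finset.Ico K (2 * K)).filter (fun n => n ∈ Bad (ε / 2))).card : ℝ) ≤ C * (K : ℝ) ^ (1 - γ)) :
    dimH {α : ℝ | 1 < α ∧ ∃ᶠ k in atTop, (α ^ k) ^ (1 / 2 + ε) < |P (α ^ k)|} ≤
      ENNReal.ofReal (1 - γ) := by
  have hd0 : 0 ≤ 1 - γ := by linarith
  have hcov : {α : ℝ | 1 < α ∧ ∃ᶠ k in atTop, (α ^ k) ^ (1 / 2 + ε) < |P (α ^ k)|} ⊆
      ⋃ j : ℕ, {α : ℝ | α ∈ Set.Icc (1 + 1 / ((j : ℝ) + 1)) (j + 1) ∧
        ∃ᶠ k in atTop, (α ^ k) ^ (1 / 2 + ε) < |P (α ^ k)|} := by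
    rintro α ⟨hα, hfr⟩
    rw [Set.mem_iUnion]
    obtain ⟨j, hj⟩ := exists_nat_ge (max α (1 / (α - 1)))
    refine ⟨j, ⟨?_, ?_⟩, hfr⟩
    · have h1 : 1 / (α - 1) ≤ j := (le_max_right _ _).trans hj
      have h2 : 0 < α - 1 := by linarith
      rw [div_le_iff₀ h2] at h1
      have h3 : 1 / ((j : ℝ) + 1) ≤ α - 1 := by
        rw [div_le_iff₀ (by positivity)]
        nlinarith
      linarith
    · have h1 : α ≤ j := (le_max_left _ _).trans hj
      linarith
  apply dim_le_of_null hd0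
  intro s hs1
  refine measure_mono_null hcov ?_
  rw [measure_iUnion_null_iff]
  intro j
  have hj0 : (0 : ℝ) < (j : ℝ) + 1 := by positivity
  set q : ℝ := 1 + 1 / ((j : ℝ) + 1) with hq
  have hq1 : 1 < q := by
    have : 0 < 1 / ((j : ℝ) + 1) := by positivity
    linarith
  have hnull := cover hC hγ hcount (I := Set.Icc q (j + 1))
    (fun k α => α ^ (k + 1)) (m := 1 / ((j : ℝ) + 1)) (by positivity)
    (fun k => q ^ (k + 1))
    (fun k => one_le_pow₀ hq1.le)
    (fun k α hα => pow_le_pow_left₀ (by linarith) hα.1 _)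
    (by
      intro k α hα β hβ hab
      have hα0 : 0 < α := lt_of_lt_of_le (by linarith) hα.1
      have h1 := log_gap hα0 hab hβ.2
      have h2 : 0 ≤ (β - α) / ((j : ℝ) + 1) := div_nonneg (by linarith) hj0.le
      rw [Real.log_pow, Real.log_pow]
      push_cast
      have h3 : (0 : ℝ) ≤ k := Nat.cast_nonneg k
      calc _ = (β - α) / ((j : ℝ) + 1) := by ring
        _ ≤ Real.log β - Real.log α := h1
        _ ≤ (k + 1) * (Real.log β - Real.log α) := by nlinarith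
        _ = _ := by ring)
    (τ := s - (1 - γ)) (by linarith) (s := s) (by linarith)
    (by
      have hr : q ^ (-(s - (1 - γ))) < 1 := Real.rpow_lt_one_of_one_lt_of_neg hq1 (by linarith)
      have h1 := (summable_geometric_of_lt_one (by positivity) hr).mul_left (q ^ (-(s - (1 - γ))))
      refine h1.congr fun k => ?_
      rw [← pow_succ', ← Real.rpow_natCast q (k + 1), ← Real.rpow_natCast, ← Real.rpow_mul (by linarith),
        ← Real.rpow_mul (by linarith), mul_comm])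
  refine measure_mono_null ?_ hnull
  rintro α ⟨hα, hfr⟩
  exact ⟨hα, freq_shift 1 hfr⟩

/-- The growth function -/
noncomputable def gr (c x : ℝ) : ℝ :=
  Real.exp (c * (Real.log (Real.log x)) ^ (1 / 4 : ℝ) *
    (Real.log (Real.log (Real.log x))) ^ (-(3 / 4) : ℝ))

lemma P_right {r r' : ℝ} (h1 : r ^ 2 ≤ r' ^ 2) (h2 : r' ^ 2 < ⌊r ^ 2⌋₊ + 1) :
    P r' = P r - Real.pi * (r' ^ 2 - r ^ 2) := by
  have e : {p : ℤ × ℤ // (p.1 : ℝ) ^ 2 + (p.2 : ℝ) ^ 2 ≤ r' ^ 2} =
      {p : ℤ × ℤ // (p.1 : ℝ) ^ 2 + (p.2 : ℝ) ^ 2 ≤ r ^ 2} := by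
    congr 1
    funext p
    apply propext
    constructor
    · intro h
      have h3 : (((p.1 ^ 2 + p.2 ^ 2 : ℤ)) : ℝ) < ((⌊r ^ 2⌋₊ : ℤ) : ℝ) + 1 := by
        push_cast
        linarith
      have h4 : p.1 ^ 2 + p.2 ^ 2 < (⌊r ^ 2⌋₊ : ℤ) + 1 := by exact_mod_cast h3
      have h5 : p.1 ^ 2 + p.2 ^ 2 ≤ (⌊r ^ 2⌋₊ : ℤ) := by omega
      have h6 : (((p.1 ^ 2 + p.2 ^ 2 : ℤ)) : ℝ) ≤ ((⌊r ^ 2⌋₊ : ℤ) : ℝ) := by exact_mod_cast h5
      push_cast at h6
      exact h6.trans (Nat.floor_le (by positivity))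
    · intro h
      exact h.trans h1
  unfold P
  rw [e]
  ring

lemma gr_lt {c : ℝ} (hc : 0 < c) : ∃ B : ℝ, 2 ≤ B ∧ ∀ H r : ℝ, B ≤ H → H ≤ r → r ≤ H ^ 4 →
    1 < Real.log (Real.log r) ∧ 0 < Real.log (Real.log (Real.log r)) ∧ gr (c / 2) r < gr c H := by
  have ht : Tendsto (fun x : ℝ => Real.log (Real.log x)) atTop atTop :=
    Real.tendsto_log_atTop.comp Real.tendsto_log_atTop
  obtain ⟨B, hB⟩ := Filter.eventually_atTop.mp (ht.eventually_ge_atTop (max 4 (Real.log 4)))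
  refine ⟨max B 2, le_max_right _ _, fun H r hH hr hr4 => ?_⟩
  have hH2 : 2 ≤ H := (le_max_right _ _).trans hH
  have hlog2 : 0 < Real.log H := Real.log_pos (by linarith)
  have h1 := hB H ((le_max_left _ _).trans hH)
  have h1a : 4 ≤ Real.log (Real.log H) := (le_max_left _ _).trans h1
  have h1b : Real.log 4 ≤ Real.log (Real.log H) := (le_max_right _ _).trans h1
  have h2 : Real.log (Real.log H) ≤ Real.log (Real.log r) :=
    Real.log_le_log hlog2 (Real.log_le_log (by linarith) hr)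
  have h3 : Real.log (Real.log r) ≤ 2 * Real.log (Real.log H) := by
    have h4 : Real.log r ≤ 4 * Real.log H := by
      have := Real.log_le_log (by linarith) hr4
      rwa [Real.log_pow] at this
    have h5 : Real.log (Real.log r) ≤ Real.log (4 * Real.log H) := by
      apply Real.log_le_log _ h4
      exact hlog2.trans_le (Real.log_le_log (by linarith) hr)
    rw [Real.log_mul (by norm_num) hlog2.ne'] at h5
    linarith
  have h6 : 0 < Real.log (Real.log (Real.log H)) := Real.log_pos (by linarith)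
  have h7 : Real.log (Real.log (Real.log H)) ≤ Real.log (Real.log (Real.log r)) :=
    Real.log_le_log (by linarith) h2
  refine ⟨by linarith, by linarith, ?_⟩
  unfold gr
  apply Real.exp_lt_exp.mpr
  have e1 : (Real.log (Real.log r)) ^ (1 / 4 : ℝ) ≤
      (2 : ℝ) ^ (1 / 4 : ℝ) * (Real.log (Real.log H)) ^ (1 / 4 : ℝ) := by
    rw [← Real.mul_rpow (by norm_num) (by linarith)]
    exact Real.rpow_le_rpow (by linarith) h3 (by norm_num)
  have e2 : (2 : ℝ) ^ (1 / 4 : ℝ) < 2 := by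
    calc (2 : ℝ) ^ (1 / 4 : ℝ) < (2 : ℝ) ^ (1 : ℝ) := Real.rpow_lt_rpow_of_exponent_lt (by norm_num) (by norm_num)
      _ = 2 := Real.rpow_one 2
  have e3 : (Real.log (Real.log (Real.log r))) ^ (-(3 / 4) : ℝ) ≤
      (Real.log (Real.log (Real.log H))) ^ (-(3 / 4) : ℝ) :=
    Real.rpow_le_rpow_of_nonpos h6 h7 (by norm_num)
  have p1 : 0 < (Real.log (Real.log H)) ^ (1 / 4 : ℝ) := Real.rpow_pos_of_pos (by linarith) _
  have p2 : 0 < (Real.log (Real.log (Real.log H))) ^ (-(3 / 4) : ℝ) := Real.rpow_pos_of_pos h6 _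
  have p3 : 0 < (Real.log (Real.log (Real.log r))) ^ (-(3 / 4) : ℝ) :=
    Real.rpow_pos_of_pos (by linarith) _
  calc c / 2 * (Real.log (Real.log r)) ^ (1 / 4 : ℝ) * (Real.log (Real.log (Real.log r))) ^ (-(3 / 4) : ℝ)
      ≤ c / 2 * ((2 : ℝ) ^ (1 / 4 : ℝ) * (Real.log (Real.log H)) ^ (1 / 4 : ℝ)) *
        (Real.log (Real.log (Real.log H))) ^ (-(3 / 4) : ℝ) := by
        apply mul_le_mul (mul_le_mul_of_nonneg_left e1 (by positivity)) e3 p3.le (by positivity)
    _ = ((2 : ℝ) ^ (1 / 4 : ℝ) / 2) * (c * (Real.log (Real.log H)) ^ (1 / 4 : ℝ) *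
        (Real.log (Real.log (Real.log H))) ^ (-(3 / 4) : ℝ)) := by ring
    _ < 1 * (c * (Real.log (Real.log H)) ^ (1 / 4 : ℝ) *
        (Real.log (Real.log (Real.log H))) ^ (-(3 / 4) : ℝ)) := by
        apply mul_lt_mul_of_pos_right _ (by positivity)
        linarith
    _ = _ := one_mul _

/-- One good parameter interval. -/
lemma local_large {c H₀ : ℝ} (hc : 0 < c) {s : ℝ}
    (hwin : ∀ R H : ℝ, 0 ≤ R → H₀ ≤ H → ∃ r ∈ Set.Icc R (R + H), √r * gr c H ≤ s * P r) :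
    ∃ B : ℝ, 2 ≤ B ∧ ∀ R : ℝ, B ≤ R → ∃ r ∈ Set.Icc R (R + √R), ∃ δ : ℝ, 0 < δ ∧
      ∀ r' : ℝ, r < r' → r' < r + δ → √r' * gr (c / 2) r' < s * P r' := by
  obtain ⟨B, hB2, hB⟩ := gr_lt hc
  refine ⟨max (B ^ 2) (max H₀ 1 ^ 2), ?_, fun R hR => ?_⟩
  · refine le_trans ?_ (le_max_left _ _)
    nlinarith
  have hRB : B ^ 2 ≤ R := (le_max_left _ _).trans hR
  have hRH : (max H₀ 1) ^ 2 ≤ R := (le_max_right _ _).trans hR
  have hR0 : 0 < R := lt_of_lt_of_le (by positivity) hRB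
  have h1 : B ≤ √R := Real.le_sqrt_of_sq_le hRB
  have h2 : H₀ ≤ √R := (le_max_left _ _).trans (Real.le_sqrt_of_sq_le hRH)
  have h3 : 1 ≤ √R := by linarith
  have hsq : √R ^ 2 = R := Real.sq_sqrt hR0.le
  obtain ⟨r, hr, hrP⟩ := hwin R (√R) hR0.le h2
  refine ⟨r, hr, ?_⟩
  have hr0 : 0 < r := lt_of_lt_of_le hR0 hr.1
  have hr1 : √R ≤ r := by nlinarith [hr.1]
  have hr4 : r ≤ √R ^ 4 := by
    have h5 : √R ^ 4 = R * R := by
      calc √R ^ 4 = √R ^ 2 * √R ^ 2 := by ring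
        _ = R * R := by rw [hsq]
    rw [h5]
    have h6 : 2 ≤ √R := by linarith
    have h7 : 4 ≤ R := by nlinarith
    have h8 : √R ≤ R := by nlinarith
    nlinarith [hr.2]
  obtain ⟨k1, k2, k3⟩ := hB (√R) r h1 hr1 hr4
  -- the function on the right of r
  have hcont : ContinuousAt (fun x : ℝ => s * (P r - Real.pi * (x ^ 2 - r ^ 2)) - √x * gr (c / 2) x) r := by
    have hl1 : 0 < Real.log r := by
      by_contra hcon
      push Not at hcon
      rcases hcon.lt_or_eq with h | h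
      · have hr2 : 1 < r := by linarith
        linarith [Real.log_pos hr2]
      · rw [h, Real.log_zero] at k1
        linarith
    have c1 : ContinuousAt (fun x : ℝ => Real.log (Real.log x)) r :=
      (Real.continuousAt_log hr0.ne').log hl1.ne'
    have c2 : ContinuousAt (fun x : ℝ => Real.log (Real.log (Real.log x))) r :=
      c1.log (by linarith)
    have c3 : ContinuousAt (fun x : ℝ => gr (c / 2) x) r := by
      unfold gr
      apply Real.continuous_exp.continuousAt.comp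
      apply ContinuousAt.mul
      · exact continuousAt_const.mul (c1.rpow_const (Or.inr (by norm_num)))
      · exact c2.rpow_const (Or.inl (by linarith))
    exact (continuousAt_const.mul (continuousAt_const.sub
      (continuousAt_const.mul ((continuousAt_id.pow 2).sub continuousAt_const)))).sub
      (Real.continuous_sqrt.continuousAt.mul c3)
  have hpos : 0 < (fun x : ℝ => s * (P r - Real.pi * (x ^ 2 - r ^ 2)) - √x * gr (c / 2) x) r := by
    have h9 : √r * gr (c / 2) r < √r * gr c (√R) := mul_lt_mul_of_pos_left k3 (Real.sqrt_pos.mpr hr0)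
    simp only [sub_self, mul_zero, sub_zero]
    linarith
  have ev1 := hcont.eventually_const_lt hpos
  have ev2 : ∀ᶠ x in 𝓝 r, x ^ 2 < (⌊r ^ 2⌋₊ : ℝ) + 1 := by
    have : ContinuousAt (fun x : ℝ => x ^ 2) r := continuousAt_id.pow 2
    exact this.eventually_lt_const (Nat.lt_floor_add_one _)
  obtain ⟨δ, hδ, hall⟩ := Metric.eventually_nhds_iff.mp (ev1.and ev2)
  refine ⟨δ, hδ, fun r' h1' h2' => ?_⟩
  obtain ⟨q1, q2⟩ := hall (y := r') (by
    rw [Real.dist_eq, abs_of_pos (by linarith)]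
    linarith)
  rw [P_right (by nlinarith) q2]
  linarith

/-- Generic large values -/
lemma generic {c H₀ : ℝ} (hc : 0 < c) {s : ℝ}
    (hwin : ∀ R H : ℝ, 0 ≤ R → H₀ ≤ H → ∃ r ∈ Set.Icc R (R + H), √r * gr c H ≤ s * P r)
    (T : ℕ → ℝ) (hT : Tendsto T atTop atTop) :
    ∀ᶠ α in residual ℝ, 0 < α → ∃ᶠ k in atTop, √(α * T k) * gr (c / 2) (α * T k) < s * P (α * T k) := by
  obtain ⟨B, hB2, hB⟩ := local_large hc hwin
  have hK : ∀ K : ℕ, ∀ᶠ α in residual ℝ, 0 < α →
      ∃ k, K ≤ k ∧ √(α * T k) * gr (c / 2) (α * T k) < s * P (α * T k) := by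
    intro K
    set A : Set ℝ := {α | ∃ k, K ≤ k ∧ √(α * T k) * gr (c / 2) (α * T k) < s * P (α * T k)} with hA
    have hopen : IsOpen (interior A ∪ Set.Iio 0) := isOpen_interior.union isOpen_Iio
    have hdense : Dense (interior A ∪ Set.Iio 0) := by
      rw [Metric.dense_iff]
      intro x ρ hρ
      rcases lt_or_ge x 0 with hx | hx
      · exact ⟨x, Metric.mem_ball_self hρ, Or.inr hx⟩
      · -- an interval on the right of x
        set u := x + ρ / 4 with hu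
        have hu0 : 0 < u := by positivity
        -- a large dilation
        have e1 : ∀ᶠ k in atTop, max (B / u) (max 1 (64 * u / ρ ^ 2)) ≤ T k := hT.eventually_ge_atTop _
        obtain ⟨k, hkT, hkK⟩ := (e1.and (eventually_ge_atTop K)).exists
        have hT1 : B / u ≤ T k := (le_max_left _ _).trans hkT
        have hT2 : 1 ≤ T k := ((le_max_left _ _).trans (le_max_right _ _)).trans hkT
        have hT3 : 64 * u / ρ ^ 2 ≤ T k := ((le_max_right _ _).trans (le_max_right _ _)).trans hkT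
        have hT0 : 0 < T k := by linarith
        have hR : B ≤ u * T k := by
          rw [div_le_iff₀ hu0] at hT1
          linarith
        obtain ⟨r, hr, δ, hδ, hall⟩ := hB (u * T k) hR
        -- the window is short
        have hsqrt : √(u * T k) ≤ ρ / 8 * T k := by
          rw [Real.sqrt_le_left (by positivity)]
          rw [div_le_iff₀ (by positivity)] at hT3
          have : u ≤ (ρ / 8) ^ 2 * T k := by nlinarith
          calc u * T k ≤ ((ρ / 8) ^ 2 * T k) * T k := mul_le_mul_of_nonneg_right this hT0.le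
            _ = (ρ / 8 * T k) ^ 2 := by ring
        set δ' := min δ (ρ / 4 * T k) with hδ'
        have hδ'0 : 0 < δ' := by positivity
        have hsub : Set.Ioo (r / T k) ((r + δ') / T k) ⊆ A := by
          rintro α ⟨h1, h2⟩
          rw [div_lt_iff₀ hT0] at h1
          rw [lt_div_iff₀ hT0] at h2
          exact ⟨k, hkK, hall (α * T k) h1 (h2.trans_le (by
            have := min_le_left δ (ρ / 4 * T k)
            linarith))⟩
        have hlt : r / T k < (r + δ') / T k := by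
          apply div_lt_div_of_pos_right _ hT0
          linarith
        obtain ⟨α, hα1, hα2⟩ := exists_between hlt
        refine ⟨α, ?_, Or.inl (interior_maximal hsub isOpen_Ioo ⟨hα1, hα2⟩)⟩
        rw [Metric.mem_ball, Real.dist_eq]
        rw [div_lt_iff₀ hT0] at hα1
        rw [lt_div_iff₀ hT0] at hα2
        have h3 : u * T k < α * T k := hr.1.trans_lt hα1
        have h4 : u < α := lt_of_mul_lt_mul_right h3 hT0.le
        have h5 : α * T k < (u + ρ / 8 + ρ / 4) * T k := by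
          have := min_le_right δ (ρ / 4 * T k)
          nlinarith [hr.2]
        have h6 : α < u + ρ / 8 + ρ / 4 := lt_of_mul_lt_mul_right h5 hT0.le
        rw [abs_of_pos (by linarith)]
        linarith
    have hres := residual_of_dense_open hopen hdense
    filter_upwards [hres] with α hα hα0
    rcases hα with h | h
    · have h' : α ∈ A := interior_subset h
      exact h'
    · exact absurd hα0 (not_lt.mpr (le_of_lt h))
  have hall := eventually_countable_forall.mpr hK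
  filter_upwards [hall] with α hα hα0
  rw [Filter.frequently_atTop]
  intro K
  obtain ⟨k, h1, h2⟩ := hα K hα0
  exact ⟨k, h1, h2⟩

/-- Large values in every window (the library theorem of `EveryWindow`). -/
lemma window : ∃ c H₀ : ℝ, 0 < c ∧ ∀ s : ℝ, (s = 1 ∨ s = -1) → ∀ R H : ℝ, 0 ≤ R → H₀ ≤ H →
    ∃ r ∈ Set.Icc R (R + H), √r * gr c H ≤ s * P r := by
  obtain ⟨C0, hC0, hS⟩ := Pool.Agent.H383.Circ.En_Sand
  obtain ⟨H0, hH0⟩ := Pool.Agent.Y938.Win.window_main Pool.Agent.H383.Circ.ag_Bd Pool.Agent.H383.Circ.ag_zero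
    Pool.Agent.H383.Circ.wg_Wt hC0 hS Pool.Agent.W24.Both.LBp_ag
  refine ⟨Pool.Agent.W24.Both.c1, H0, Pool.Agent.W24.Both.c1_pos, ?_⟩
  intro s hs R H hR hH
  obtain ⟨r, hr, h1⟩ := hH0 R H hR hH s hs
  refine ⟨r, hr, ?_⟩
  unfold Pool.Agent.H383.Gauss.En Pool.Agent.H383.Gauss.F at h1
  have hr0 : 0 ≤ r := hR.trans hr.1
  rcases (Real.sqrt_nonneg r).lt_or_eq with h | h
  · rw [← mul_div_assoc, le_div_iff₀ h] at h1
    unfold gr P
    linarith
  · exfalso
    rw [← h, _root_.div_zero, mul_zero] at h1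
    exact absurd h1 (not_le.mpr (Real.exp_pos _))

open Classical in
lemma metric : ∃ c : ℝ, 0 < c ∧ ∀ ε : ℝ, 0 < ε → ε ≤ c →
    0 < c * (ε * Real.log (1 / ε)) ∧
    (∀ (T : ℕ → ℝ) (τ : ℝ), (∀ k, 0 < T k) → 0 < τ → (Summable fun k => (T k) ^ (-τ)) →
      dimH {α : ℝ | 0 < α ∧ ∃ᶠ k in atTop, (α * T k) ^ (1 / 2 + ε) < |P (α * T k)|} ≤
        ENNReal.ofReal (1 - c * (ε * Real.log (1 / ε)) + τ / 2)) ∧
    (∀ T : ℕ → ℝ, (∀ k, 0 < T k) → (∀ τ : ℝ, 0 < τ → Summable fun k => (T k) ^ (-τ)) →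
      dimH {α : ℝ | 0 < α ∧ ∃ᶠ k in atTop, (α * T k) ^ (1 / 2 + ε) < |P (α * T k)|} ≤
        ENNReal.ofReal (1 - c * (ε * Real.log (1 / ε)))) ∧
    dimH {α : ℝ | 1 < α ∧ ∃ᶠ k in atTop, (α ^ k) ^ (1 / 2 + ε) < |P (α ^ k)|} ≤
        ENNReal.ofReal (1 - c * (ε * Real.log (1 / ε))) := by
  obtain ⟨c₁, hc₁, hE⟩ := Pool.Agent.Y969.SW.exc_circle' (1 / 2) (by norm_num)
  have hcpos : 0 < min (c₁ / 2) (1 / 2) := by positivity
  refine ⟨min (c₁ / 2) (1 / 2), hcpos, fun ε hε hεc => ?_⟩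
  set c := min (c₁ / 2) (1 / 2) with hc
  have hc1 : c ≤ c₁ / 2 := min_le_left _ _
  have hc2 : c ≤ 1 / 2 := min_le_right _ _
  have hε1 : ε ≤ 1 / 2 := hεc.trans hc2
  have hlog : 0 < Real.log (1 / ε) := Real.log_pos (by
    rw [lt_div_iff₀ hε]
    linarith)
  have hγ0 : 0 < c * (ε * Real.log (1 / ε)) := by positivity
  have hlogle : ε * Real.log (1 / ε) ≤ 1 := by
    have h1 : Real.log (1 / ε) ≤ 1 / ε - 1 := Real.log_le_sub_one_of_pos (by positivity)
    have h2 : ε * Real.log (1 / ε) ≤ ε * (1 / ε - 1) := mul_le_mul_of_nonneg_left h1 hε.le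
    have h3 : ε * (1 / ε - 1) = 1 - ε := by field_simp
    linarith
  have hγ1 : c * (ε * Real.log (1 / ε)) ≤ 1 := by nlinarith
  obtain ⟨C, hC, hcard⟩ := hE (ε / 2) (by positivity) (by linarith)
  have hle : c * (ε * Real.log (1 / ε)) ≤ c₁ * (ε / 2 * Real.log (1 / (ε / 2))) := by
    have h1 : Real.log (1 / ε) ≤ Real.log (1 / (ε / 2)) := by
      apply Real.log_le_log (by positivity)
      apply one_div_le_one_div_of_le (by positivity)
      linarith
    have h2 : ε * Real.log (1 / ε) ≤ ε * Real.log (1 / (ε / 2)) := mul_le_mul_of_nonneg_left h1 hε.le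
    have h3 : 0 ≤ ε * Real.log (1 / ε) := by positivity
    calc c * (ε * Real.log (1 / ε)) ≤ c₁ / 2 * (ε * Real.log (1 / ε)) :=
          mul_le_mul_of_nonneg_right hc1 h3
      _ ≤ c₁ / 2 * (ε * Real.log (1 / (ε / 2))) := mul_le_mul_of_nonneg_left h2 (by positivity)
      _ = _ := by ring
  have hcount : ∀ K : ℕ, 1 ≤ K →
      (((Finset.Ico K (2 * K)).filter (fun n => n ∈ Bad (ε / 2))).card : ℝ) ≤
        C * (K : ℝ) ^ (1 - c * (ε * Real.log (1 / ε))) := by
    intro K hK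
    have hK1 : (1 : ℝ) ≤ K := by exact_mod_cast hK
    have h1 := hcard K K hK (by
      rw [show (1 / 2 + 1 / 2 : ℝ) = 1 from by norm_num, Real.rpow_one])
    rw [two_mul]
    refine (le_trans (le_of_eq ?_) h1).trans ?_
    · congr 2
    · apply mul_le_mul_of_nonneg_left _ hC.le
      exact Real.rpow_le_rpow_of_exponent_le hK1 (by linarith)
  refine ⟨hγ0, ?_, ?_, ?_⟩
  · intro T τ hT hτ hs
    exact dil hC.le hγ1 hcount T hT hτ hs
  · intro T hT hs
    apply ENNReal.le_of_forall_pos_le_add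
    intro η hη _
    have hη' : (0 : ℝ) < η := hη
    have h1 := dil hC.le hγ1 hcount T hT (τ := 2 * η) (by positivity) (hs _ (by positivity))
    refine h1.trans (le_of_eq ?_)
    rw [show 2 * (η : ℝ) / 2 = η from by ring, ENNReal.ofReal_add (by linarith) (NNReal.coe_nonneg η),
      ENNReal.ofReal_coe_nnreal]
  · exact pow hC.le hγ1 hcount


/-- `P(R)` is the error term `#{x² + y² ≤ R²} - πR²` of the Gauss circle problem. With absolute constants
`c, c' > 0`:
(A) (metric part) for `0 < ε ≤ c` and `γ = c ε log(1/ε) > 0`: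
(1) if `T_k > 0`, `τ > 0` and `∑ T_k^{-τ} < ∞`, then the set of the `α > 0` with
`|P(αT_k)| > (αT_k)^{1/2+ε}` for infinitely many `k` has Hausdorff dimension at most `1 - γ + τ/2`;
(2) so it has dimension at most `1 - γ`, if `∑ T_k^{-τ} < ∞` for all `τ > 0` (for instance for lacunary
sequences);
(3) the set of the `α > 1` with `|P(α^k)| > (α^k)^{1/2+ε}` for infinitely many `k` has Hausdorff
dimension at most `1 - γ`.
(B) (topological part) if `T_k → ∞`, then for all `α > 0` outside a set of first category both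
`P(αT_k) > √(αT_k) exp(c' (log log R)^{1/4} (log log log R)^{-3/4})`, `R = αT_k`, and
`P(αT_k) < -√(αT_k) exp(c' (log log R)^{1/4} (log log log R)^{-3/4})` hold for infinitely many `k`. -/
theorem result : (∃ c : ℝ, 0 < c ∧ ∀ ε : ℝ, 0 < ε → ε ≤ c →
    0 < c * (ε * Real.log (1 / ε)) ∧
    (∀ (T : ℕ → ℝ) (τ : ℝ), (∀ k, 0 < T k) → 0 < τ → (Summable fun k => (T k) ^ (-τ)) →
      dimH {α : ℝ | 0 < α ∧ ∃ᶠ k in atTop, (α * T k) ^ (1 / 2 + ε) < |P (α * T k)|} ≤
        ENNReal.ofReal (1 - c * (ε * Real.log (1 / ε)) + τ / 2)) ∧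
    (∀ T : ℕ → ℝ, (∀ k, 0 < T k) → (∀ τ : ℝ, 0 < τ → Summable fun k => (T k) ^ (-τ)) →
      dimH {α : ℝ | 0 < α ∧ ∃ᶠ k in atTop, (α * T k) ^ (1 / 2 + ε) < |P (α * T k)|} ≤
        ENNReal.ofReal (1 - c * (ε * Real.log (1 / ε)))) ∧
    dimH {α : ℝ | 1 < α ∧ ∃ᶠ k in atTop, (α ^ k) ^ (1 / 2 + ε) < |P (α ^ k)|} ≤
        ENNReal.ofReal (1 - c * (ε * Real.log (1 / ε)))) ∧
    ∃ c' : ℝ, 0 < c' ∧ ∀ T : ℕ → ℝ, Tendsto T atTop atTop → ∀ᶠ α in residual ℝ, 0 < α →
      (∃ᶠ k in atTop, √(α * T k) * Real.exp (c' * (Real.log (Real.log (α * T k))) ^ (1 / 4 : ℝ) *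
        (Real.log (Real.log (Real.log (α * T k)))) ^ (-(3 / 4) : ℝ)) < P (α * T k)) ∧
      (∃ᶠ k in atTop, P (α * T k) < -(√(α * T k) *
        Real.exp (c' * (Real.log (Real.log (α * T k))) ^ (1 / 4 : ℝ) *
        (Real.log (Real.log (Real.log (α * T k)))) ^ (-(3 / 4) : ℝ)))) := by
  refine ⟨metric, ?_⟩
  obtain ⟨c, H₀, hc, hwin⟩ := window
  refine ⟨c / 2, by positivity, fun T hT => ?_⟩
  have h1 := generic hc (s := 1) (hwin 1 (Or.inl rfl)) T hT
  have h2 := generic hc (s := -1) (hwin (-1) (Or.inr rfl)) T hT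
  filter_upwards [h1, h2] with α h1 h2 hα
  constructor
  · refine (h1 hα).mono fun k hk => ?_
    rw [one_mul] at hk
    exact hk
  · refine (h2 hα).mono fun k hk => ?_
    have hk' : √(α * T k) * gr (c / 2) (α * T k) < -P (α * T k) := by
      rw [← neg_one_mul]
      exact hk
    unfold gr at hk'
    linarith

end Pool.Agent.Results.MP_fb29e9_nt.ExceptionalDilations
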