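import Mathlib
import Pool.Agent.H383.FullC
import Pool.Agent.H383.Full3
import Pool.Agent.H425R3.JL.F3
import Pool.Agent.W24.MulOrth2

/-!
# The circle problem at multiples of a fixed radius: a bias towards too few lattice points

Along the multiples `α, 2α, 3α, …` of a fixed radius the error term has a negative mean if `α` is the
length of a rational vector, and mean zero otherwise.  For `5/6` at least of all the integers `n` the
circle of radius `n` contains fewer lattice points than its area.  The proportion has a limit, it is seen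
in short windows, along the primes and against all multiplicative weights.
-/

open Filter Topology MeasureTheory

namespace Pool.Agent.Results.MP_fb29e9_nt.IntegerRadiiBias

lemma cond_iff (F : ℕ → ℕ) (hF : ∀ n : ℕ, F n = Nat.card {p : ℤ × ℤ // p.1 ^ 2 + p.2 ^ 2 ≤ (n : ℤ) ^ 2})
    (n : ℕ) : ((F n : ℝ) < Real.pi * (n : ℝ) ^ 2) ↔ Pool.Agent.H383.Circ.Cx ((n : ℝ) ^ 2) < 0 := by
  have e : {p : ℤ × ℤ // (p.1 : ℝ) ^ 2 + (p.2 : ℝ) ^ 2 ≤ (n : ℝ) ^ 2} =
      {p : ℤ × ℤ // p.1 ^ 2 + p.2 ^ 2 ≤ (n : ℤ) ^ 2} := by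
    congr 1
    funext p
    apply propext
    constructor
    · intro h; exact_mod_cast h
    · intro h; exact_mod_cast h
  unfold Pool.Agent.H383.Circ.Cx
  rw [e, ← hF, sub_neg]

lemma cond_iff' (F : ℕ → ℕ) (hF : ∀ n : ℕ, F n = Nat.card {p : ℤ × ℤ // p.1 ^ 2 + p.2 ^ 2 ≤ (n : ℤ) ^ 2})
    {n : ℕ} (hn : 1 ≤ n) :
    (Pool.Agent.H425R3.JL.Ec (((1 : ℕ) : ℝ) * (n : ℝ) ^ 2 + 0 * n + 0) < 0) ↔
      ((F n : ℝ) < Real.pi * (n : ℝ) ^ 2) := by
  rw [cond_iff F hF]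
  have h0 : (0 : ℝ) < n := by exact_mod_cast hn
  have e : ((1 : ℕ) : ℝ) * (n : ℝ) ^ 2 + 0 * n + 0 = (n : ℝ) ^ 2 := by push_cast; ring
  rw [e]
  unfold Pool.Agent.H425R3.JL.Ec Pool.Agent.H383.Circ.Cx
  have hp : (0 : ℝ) < ((n : ℝ) ^ 2) ^ (1 / 4 : ℝ) := by positivity
  rw [div_lt_iff₀ hp, zero_mul]

/-- The half space -/
def A : Set (Fin 1 → ℝ) := {x | x 0 < 0}

lemma frontier_A : frontier A ⊆ {x : Fin 1 → ℝ | x 0 = 0} := by
  intro x hx
  have hc : Continuous fun x : Fin 1 → ℝ => x 0 := continuous_apply 0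
  have h1 : frontier A ⊆ {x : Fin 1 → ℝ | (fun x : Fin 1 → ℝ => x 0) x = (fun _ => (0 : ℝ)) x} :=
    frontier_lt_subset_eq hc continuous_const
  exact h1 hx

lemma null_of_density {μ : Measure (Fin 1 → ℝ)} {g : ℂ → ℂ}
    (h : μ.map (fun x => x 0) = volume.withDensity (fun x : ℝ => ENNReal.ofReal (g x).re)) :
    μ (frontier A) = 0 := by
  have h0 : μ {x : Fin 1 → ℝ | x 0 = 0} = 0 := by
    have h1 : {x : Fin 1 → ℝ | x 0 = 0} = (fun x : Fin 1 → ℝ => x 0) ⁻¹' {0} := rfl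
    rw [h1, ← Measure.map_apply (measurable_pi_apply 0) (measurableSet_singleton 0), h]
    rw [withDensity_apply _ (measurableSet_singleton 0)]
    simp
  exact measure_mono_null frontier_A h0

lemma cos_val (k : ℤ) : Real.cos (2 * Real.pi * k - 3 * Real.pi / 4) = -(√2 / 2) := by
  have e : 2 * Real.pi * k - 3 * Real.pi / 4 = -(3 * Real.pi / 4) + (k : ℤ) * (2 * Real.pi) := by ring
  rw [e, Real.cos_add_int_mul_two_pi, Real.cos_neg]
  have e2 : 3 * Real.pi / 4 = Real.pi - Real.pi / 4 := by ring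
  rw [e2, Real.cos_pi_sub, Real.cos_pi_div_four]

/-- The resonant term is `-(√2/(2π)) r(m) m^{-3/4}`. -/
lemma term_eq {α : ℝ} (hα : 0 < α) {m : ℕ} {k : ℤ} (hk : √(α ^ 2 * m) = k) :
    Real.cos (Real.pi * (2 * α ^ 2) * √((m : ℝ) / α ^ 2) - 3 * Real.pi / 4) = -(√2 / 2) := by
  have h1 : √(α ^ 2 * (m : ℝ)) = α * √(m : ℝ) := by
    rw [Real.sqrt_mul (by positivity), Real.sqrt_sq hα.le]
  have h2 : √((m : ℝ) / α ^ 2) = √(m : ℝ) / α := by
    rw [Real.sqrt_div (Nat.cast_nonneg m), Real.sqrt_sq hα.le]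
  rw [h1] at hk
  rw [h2, ← cos_val k, ← hk]
  congr 1
  field_simp

/-- the number of representations -/
noncomputable def rep (m : ℕ) : ℝ := (Nat.card {p : ℤ × ℤ // p.1 ^ 2 + p.2 ^ 2 = (m : ℤ)} : ℝ)

lemma finite_rep (m : ℕ) : Finite {p : ℤ × ℤ // p.1 ^ 2 + p.2 ^ 2 = (m : ℤ)} := by
  have h : {p : ℤ × ℤ | p.1 ^ 2 + p.2 ^ 2 = (m : ℤ)} ⊆
      (Set.Icc (-(m : ℤ)) m) ×ˢ (Set.Icc (-(m : ℤ)) m) := by
    rintro ⟨x, y⟩ hxy
    simp only [Set.mem_ofPred_eq] at hxy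
    have key : ∀ z w : ℤ, z ^ 2 + w ^ 2 = m → z ∈ Set.Icc (-(m : ℤ)) m := by
      intro z w hzw
      have h1 : z ^ 2 ≤ m := by nlinarith [sq_nonneg w]
      constructor
      · by_contra hc
        push Not at hc
        nlinarith [sq_nonneg (z + 1), Int.natCast_nonneg m]
      · by_contra hc
        push Not at hc
        nlinarith [sq_nonneg (z - 1), Int.natCast_nonneg m]
    exact ⟨key x y hxy, key y x (by rw [add_comm]; exact hxy)⟩
  exact ((Set.finite_Icc _ _).prod (Set.finite_Icc _ _)).subset h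

lemma rep_pos {m : ℕ} {x y : ℤ} (h : x ^ 2 + y ^ 2 = (m : ℤ)) : 0 < rep m := by
  have := finite_rep m
  unfold rep
  have h1 : 0 < Nat.card {p : ℤ × ℤ // p.1 ^ 2 + p.2 ^ 2 = (m : ℤ)} :=
    Nat.card_pos_iff.mpr ⟨⟨⟨(x, y), h⟩⟩, this⟩
  exact_mod_cast h1

lemma exists_rep {m : ℕ} (h : rep m ≠ 0) : ∃ x y : ℤ, x ^ 2 + y ^ 2 = (m : ℤ) := by
  unfold rep at h
  have h1 : Nat.card {p : ℤ × ℤ // p.1 ^ 2 + p.2 ^ 2 = (m : ℤ)} ≠ 0 := by exact_mod_cast h
  obtain ⟨⟨⟨⟨x, y⟩, hxy⟩⟩, -⟩ := Nat.card_ne_zero.mp h1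
  exact ⟨x, y, hxy⟩

open Classical in
/-- The mean of the error term along the multiples of `α`. -/
theorem mean_dichotomy {α : ℝ} (hα : 0 < α) : ∃ M : ℝ, M ≤ 0 ∧
    (M < 0 ↔ ∃ u v : ℚ, α ^ 2 = (u : ℝ) ^ 2 + (v : ℝ) ^ 2) ∧
    ∀ ε : ℝ, 0 < ε → ∀ η : ℝ, 0 < η → ∃ N₀ : ℕ, ∀ N : ℕ, N₀ ≤ N → ∀ k : ℕ,
      (k : ℝ) ^ (1 / 4 + ε) ≤ N →
      |(∑ n ∈ Finset.Ioc k (k + N),
        ((Nat.card {p : ℤ × ℤ // (p.1 : ℝ) ^ 2 + (p.2 : ℝ) ^ 2 ≤ (α * n) ^ 2} : ℝ)
          - Real.pi * (α * n) ^ 2) / √(α * n)) / N - M| ≤ η := by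
  have ha : 0 < α ^ 2 := by positivity
  have hP : ∀ n : ℕ, 0 < α ^ 2 * (n : ℝ) ^ 2 + 2 * α ^ 2 * n + α ^ 2 := fun n => by positivity
  obtain ⟨μ, -, -, -, -, -, -, -, -, hmean, hsum, heq⟩ := Pool.Agent.H383.Circ.distr3 ha hP
  set t : ℕ → ℝ := fun m => if 1 ≤ m ∧ ∃ k : ℤ, √(α ^ 2 * m) = k then
      (Nat.card {p : ℤ × ℤ // p.1 ^ 2 + p.2 ^ 2 = (m : ℤ)} : ℝ) / Real.pi
        * (m : ℝ) ^ (-(3 / 4) : ℝ) * Real.cos (Real.pi * (2 * α ^ 2) * √((m : ℝ) / α ^ 2) - 3 * Real.pi / 4)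
      else 0 with ht
  have ht1 : ∀ m : ℕ, 1 ≤ m → (∃ k : ℤ, √(α ^ 2 * m) = k) →
      t m = -(√2 / 2 / Real.pi * (rep m * (m : ℝ) ^ (-(3 / 4) : ℝ))) := by
    intro m hm hk
    simp only [ht]
    rw [if_pos ⟨hm, hk⟩]
    obtain ⟨k, hk⟩ := hk
    rw [term_eq hα hk]
    unfold rep
    ring
  have ht2 : ∀ m : ℕ, ¬ (1 ≤ m ∧ ∃ k : ℤ, √(α ^ 2 * m) = k) → t m = 0 := by
    intro m hm
    simp only [ht]
    rw [if_neg hm]
  have hrep0 : ∀ m, 0 ≤ rep m := fun m => Nat.cast_nonneg _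
  have hnonpos : ∀ m, t m ≤ 0 := by
    intro m
    by_cases h : 1 ≤ m ∧ ∃ k : ℤ, √(α ^ 2 * m) = k
    · rw [ht1 m h.1 h.2]
      have h1 : 0 ≤ √2 / 2 / Real.pi * (rep m * (m : ℝ) ^ (-(3 / 4) : ℝ)) := by
        have := hrep0 m
        positivity
      linarith
    · rw [ht2 m h]
  have hM0 : ∑' m, t m ≤ 0 := tsum_nonpos hnonpos
  refine ⟨∑' m, t m, hM0, ⟨?_, ?_⟩, ?_⟩
  · intro hneg
    by_contra hno
    have hzero : ∀ m, t m = 0 := by
      intro m
      by_cases h : 1 ≤ m ∧ ∃ k : ℤ, √(α ^ 2 * m) = k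
      · rw [ht1 m h.1 h.2]
        obtain ⟨hm, k, hk⟩ := h
        have hm0 : (0 : ℝ) < m := by exact_mod_cast hm
        have hr : rep m = 0 := by
          by_contra hr
          obtain ⟨x, y, hxy⟩ := exists_rep hr
          apply hno
          have h2 : α ^ 2 * m = (k : ℝ) ^ 2 := by
            rw [← hk, Real.sq_sqrt (by positivity)]
          have h3 : (x : ℝ) ^ 2 + (y : ℝ) ^ 2 = m := by exact_mod_cast hxy
          refine ⟨(k : ℚ) * x / m, (k : ℚ) * y / m, ?_⟩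
          push_cast
          have h4 : α ^ 2 = (k : ℝ) ^ 2 / m := by
            rw [eq_div_iff hm0.ne']
            exact h2
          rw [h4, div_pow, div_pow, ← add_div, mul_pow, mul_pow, ← mul_add, h3]
          field_simp
        rw [hr]
        ring
      · exact ht2 m h
    rw [tsum_congr hzero, tsum_zero] at hneg
    exact lt_irrefl _ hneg
  · rintro ⟨u, v, huv⟩
    -- clear denominators
    set d : ℕ := u.den * v.den with hd
    have hd0 : 0 < d := Nat.mul_pos u.den_pos v.den_pos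
    set x : ℤ := u.num * v.den with hx
    set y : ℤ := v.num * u.den with hy
    have hdr : (0 : ℝ) < d := by exact_mod_cast hd0
    have hxr : (x : ℝ) = u * d := by
      have h1 : (u : ℝ) * u.den = u.num := by exact_mod_cast u.mul_den_eq_num
      rw [hx, hd]
      push_cast
      rw [← h1]
      ring
    have hyr : (y : ℝ) = v * d := by
      have h1 : (v : ℝ) * v.den = v.num := by exact_mod_cast v.mul_den_eq_num
      rw [hy, hd]
      push_cast
      rw [← h1]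
      ring
    obtain ⟨N0, hN0⟩ : ∃ N0 : ℕ, (N0 : ℤ) = x ^ 2 + y ^ 2 :=
      ⟨(x ^ 2 + y ^ 2).toNat, Int.toNat_of_nonneg (by positivity)⟩
    have hN0r : (N0 : ℝ) = α ^ 2 * (d : ℝ) ^ 2 := by
      have h1 : (N0 : ℝ) = (x : ℝ) ^ 2 + (y : ℝ) ^ 2 := by exact_mod_cast hN0
      rw [h1, hxr, hyr, huv]
      ring
    have hN0pos : (0 : ℝ) < N0 := by
      rw [hN0r]
      positivity
    have hN0pos' : 0 < N0 := by exact_mod_cast hN0pos
    set m : ℕ := N0 * d ^ 2 with hm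
    have hm1 : 1 ≤ m := Nat.mul_pos hN0pos' (by positivity)
    have hk : √(α ^ 2 * (m : ℝ)) = ((N0 : ℤ) : ℝ) := by
      have h1 : α ^ 2 * (m : ℝ) = (N0 : ℝ) ^ 2 := by
        rw [hm]
        push_cast
        calc α ^ 2 * ((N0 : ℝ) * (d : ℝ) ^ 2) = N0 * (α ^ 2 * (d : ℝ) ^ 2) := by ring
          _ = (N0 : ℝ) ^ 2 := by rw [← hN0r]; ring
      rw [h1, Real.sqrt_sq hN0pos.le]
      norm_cast
    have hr : 0 < rep m := by
      apply rep_pos (x := x * d) (y := y * d)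
      rw [hm]
      push_cast
      rw [hN0]
      ring
    have hlt : t m < 0 := by
      rw [ht1 m hm1 ⟨_, hk⟩]
      have hm0 : (0 : ℝ) < m := by exact_mod_cast hm1
      have h1 : 0 < √2 / 2 / Real.pi * (rep m * (m : ℝ) ^ (-(3 / 4) : ℝ)) := by positivity
      linarith
    have hle : ∑' m, t m ≤ t m := by
      have h1 := hsum.neg.le_tsum m (fun j _ => by
        have := hnonpos j
        linarith)
      rw [tsum_neg] at h1
      linarith
    linarith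
  · intro ε hε η hη
    obtain ⟨N₀, hN⟩ := hmean ε hε η hη
    refine ⟨N₀, fun N hNN k hk => ?_⟩
    have h1 := hN N hNN k hk
    rw [heq] at h1
    refine le_trans (le_of_eq ?_) h1
    congr 3
    have e1 : Finset.Ioc k (k + N) = Finset.Ico (k + 1) (k + N + 1) := by
      ext n
      simp only [Finset.mem_Ioc, Finset.mem_Ico]
      omega
    rw [e1, ← Finset.sum_Ico_add' _ k (k + N) 1]
    apply Finset.sum_congr rfl
    intro n _
    have hpos : 0 < α * ((n + 1 : ℕ) : ℝ) := by positivity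
    have e2 : α ^ 2 * (n : ℝ) ^ 2 + 2 * α ^ 2 * n + α ^ 2 = (α * ((n + 1 : ℕ) : ℝ)) ^ 2 := by
      push_cast
      ring
    have e3 : ((α * ((n + 1 : ℕ) : ℝ)) ^ 2) ^ (1 / 4 : ℝ) = √(α * ((n + 1 : ℕ) : ℝ)) := by
      rw [← Real.rpow_natCast, ← Real.rpow_mul hpos.le, Real.sqrt_eq_rpow]
      norm_num
    unfold Pool.Agent.H383.Circ.Cx
    rw [e2, e3]

open Classical in
/-- (A) For every real `α > 0` the mean of `(F(αn) - π(αn)²)/√(αn)` over `k < n ≤ k + N`, `N ≥ k^{1/4+ε}`,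
tends to a limit `M ≤ 0` as `N → ∞`, uniformly in `k`. It is negative if and only if `α² = u² + v²` with
rational numbers `u`, `v`.
(B) Let `F(n)` be the number of integer points in the disc of radius `n`. There is a number `d`,
`5/6 ≤ d < 1`, such that:
(1) the proportion of the `n` with `F(n) < πn²` tends to `d` in all windows `k < n ≤ k + N` with
`N ≥ k^{1/2+ε}`, uniformly in `k`;
(2) the proportion of the primes `p ≤ N` with `F(p) < πp²` tends to `d`;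
(3) `∑_{n ≤ N} g(n) (1_{F(n) < πn²} - d) = o(N)` uniformly over all multiplicative `g` with `|g| ≤ 1`;
(4) the same for all weights `|w_N(n)| ≤ 1` that are asymptotically uncorrelated with the irrational
rotations. -/
theorem result :
    (∀ α : ℝ, 0 < α → ∃ M : ℝ, M ≤ 0 ∧
      (M < 0 ↔ ∃ u v : ℚ, α ^ 2 = (u : ℝ) ^ 2 + (v : ℝ) ^ 2) ∧
      ∀ ε : ℝ, 0 < ε → ∀ η : ℝ, 0 < η → ∃ N₀ : ℕ, ∀ N : ℕ, N₀ ≤ N → ∀ k : ℕ,
        (k : ℝ) ^ (1 / 4 + ε) ≤ N →
        |(∑ n ∈ Finset.Ioc k (k + N),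
          ((Nat.card {p : ℤ × ℤ // (p.1 : ℝ) ^ 2 + (p.2 : ℝ) ^ 2 ≤ (α * n) ^ 2} : ℝ)
            - Real.pi * (α * n) ^ 2) / √(α * n)) / N - M| ≤ η) ∧
    ∀ F : ℕ → ℕ, (∀ n : ℕ, F n = Nat.card {p : ℤ × ℤ // p.1 ^ 2 + p.2 ^ 2 ≤ (n : ℤ) ^ 2}) →
    ∃ d : ℝ, 5 / 6 ≤ d ∧ d < 1 ∧
      (∀ ε : ℝ, 0 < ε → ∀ η : ℝ, 0 < η → ∃ N₀ : ℕ, ∀ N : ℕ, N₀ ≤ N → ∀ k : ℕ,
        (k : ℝ) ^ (1 / 2 + ε) ≤ N →
        |(((Finset.Ioc k (k + N)).filter (fun n : ℕ => (F n : ℝ) < Real.pi * (n : ℝ) ^ 2)).card : ℝ) / N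
          - d| ≤ η) ∧
      Tendsto (fun N : ℕ => (((Finset.Icc 1 N).filter (fun p : ℕ => p.Prime ∧
            (F p : ℝ) < Real.pi * (p : ℝ) ^ 2)).card : ℝ) / ((Finset.Icc 1 N).filter Nat.Prime).card)
          atTop (𝓝 d) ∧
      (∀ η : ℝ, 0 < η → ∃ N₀ : ℕ, ∀ N : ℕ, N₀ ≤ N → ∀ g : ℕ → ℂ, (∀ n, ‖g n‖ ≤ 1) →
          (∀ m n : ℕ, Nat.Coprime m n → g (m * n) = g m * g n) →
          ‖∑ n ∈ Finset.Icc 1 N, g n *
            (((if (F n : ℝ) < Real.pi * (n : ℝ) ^ 2 then 1 else 0) - d : ℝ) : ℂ)‖ ≤ η * N) ∧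
      (∀ w : ℕ → ℕ → ℂ, (∀ N n, ‖w N n‖ ≤ 1) →
          (∀ θ : ℝ, Irrational θ → Tendsto (fun N : ℕ =>
            (∑ n ∈ Finset.Icc 1 N, w N n * Complex.exp (2 * Real.pi * θ * n * Complex.I)) / N)
            atTop (𝓝 0)) →
          Tendsto (fun N : ℕ => (∑ n ∈ Finset.Icc 1 N, w N n *
            (((if (F n : ℝ) < Real.pi * (n : ℝ) ^ 2 then 1 else 0) - d : ℝ) : ℂ)) / N) atTop (𝓝 0)) := by
  refine ⟨fun α hα => mean_dichotomy hα, ?_⟩
  intro F hF
  obtain ⟨d, hd1, hd2, hd3⟩ := Pool.Agent.H383.Circ.radii2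
  have hd3' : ∀ ε : ℝ, 0 < ε → ∀ η : ℝ, 0 < η → ∃ N₀ : ℕ, ∀ N : ℕ, N₀ ≤ N → ∀ k : ℕ,
        (k : ℝ) ^ (1 / 2 + ε) ≤ N →
        |(((Finset.Ioc k (k + N)).filter (fun n : ℕ => (F n : ℝ) < Real.pi * (n : ℝ) ^ 2)).card : ℝ) / N
          - d| ≤ η := by
    intro ε hε η hη
    obtain ⟨N0, hN0⟩ := hd3 ε hε η hη
    refine ⟨N0, fun N hN k hk => ?_⟩
    have h1 := hN0 N hN k hk
    have h2 : (Finset.Ioc k (k + N)).filter (fun n : ℕ => (F n : ℝ) < Real.pi * (n : ℝ) ^ 2) =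
        (Finset.Ioc k (k + N)).filter (fun n : ℕ => Pool.Agent.H383.Circ.Cx ((n : ℝ) ^ 2) < 0) :=
      Finset.filter_congr fun n _ => cond_iff F hF n
    rw [h2]
    exact h1
  -- the density along all the integers
  have hall : Tendsto (fun N : ℕ => (((Finset.Icc 1 N).filter (fun n : ℕ =>
      (F n : ℝ) < Real.pi * (n : ℝ) ^ 2)).card : ℝ) / N) atTop (𝓝 d) := by
    rw [Metric.tendsto_atTop]
    intro η hη
    obtain ⟨N0, hN0⟩ := hd3' 1 one_pos (η / 2) (by positivity)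
    refine ⟨N0, fun N hN => ?_⟩
    have h1 := hN0 N hN 0 (by
      rw [Nat.cast_zero, Real.zero_rpow (by norm_num)]
      positivity)
    rw [show Finset.Ioc 0 (0 + N) = Finset.Icc 1 N from by ext x; simp; omega] at h1
    rw [Real.dist_eq]
    linarith
  refine ⟨d, hd1, hd2, hd3', ?_, ?_⟩
  · -- primes
    obtain ⟨μ, -, hden, -, hA⟩ := Pool.Agent.H425R3.JL.final_gen Pool.Agent.H425R3.JL.circ_data
      (k := 1) (fun _ => 1) (fun _ => 0) (fun _ => 0) (fun _ => one_pos)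
      (fun _ n hn => by
        have : (0 : ℝ) < n := by exact_mod_cast hn
        push_cast
        positivity)
    obtain ⟨g, -, -, hg, -⟩ := hden 0
    obtain ⟨h1, h2⟩ := hA A (null_of_density hg)
    have e1 : (fun N : ℕ => (((Finset.Icc 1 N).filter (fun n : ℕ =>
        (fun _ : Fin 1 => Pool.Agent.H425R3.JL.Ec (((1 : ℕ) : ℝ) * (n : ℝ) ^ 2 + 0 * n + 0)) ∈ A)).card : ℝ) / N) =
        (fun N : ℕ => (((Finset.Icc 1 N).filter (fun n : ℕ =>
          (F n : ℝ) < Real.pi * (n : ℝ) ^ 2)).card : ℝ) / N) := by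
      funext N
      congr 3
      apply Finset.filter_congr
      intro n hn
      exact cond_iff' F hF (Finset.mem_Icc.mp hn).1
    rw [e1] at h1
    have hd := tendsto_nhds_unique h1 hall
    rw [hd] at h2
    refine h2.congr fun N => ?_
    congr 3
    apply Finset.filter_congr
    intro n hn
    have := cond_iff' F hF (Finset.mem_Icc.mp hn).1
    constructor
    · rintro ⟨h3, h4⟩
      exact ⟨h3, this.mp h4⟩
    · rintro ⟨h3, h4⟩
      exact ⟨h3, this.mpr h4⟩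
  · -- multiplicative functions and weights
    obtain ⟨μ, -, hden, hf⟩ := Pool.Agent.W24.MulOrth.mo_gen Pool.Agent.H425R3.JL.circ_data
      (k := 1) (fun _ => 1) (fun _ => 0) (fun _ => 0) (fun _ => one_pos)
      (fun _ n hn => by
        have : (0 : ℝ) < n := by exact_mod_cast hn
        push_cast
        positivity)
    obtain ⟨g, -, -, hg, -⟩ := hden 0
    obtain ⟨h1, h2⟩ := hf (A.indicator 1) (Or.inr ⟨A, null_of_density hg, rfl⟩)
    have hind : ∀ n : ℕ, 1 ≤ n → A.indicator (1 : (Fin 1 → ℝ) → ℝ)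
        (fun _ => Pool.Agent.H425R3.JL.Ec (((1 : ℕ) : ℝ) * (n : ℝ) ^ 2 + 0 * n + 0)) =
        if (F n : ℝ) < Real.pi * (n : ℝ) ^ 2 then 1 else 0 := by
      intro n hn
      by_cases hc : (F n : ℝ) < Real.pi * (n : ℝ) ^ 2
      · rw [if_pos hc, Set.indicator_of_mem]
        · rfl
        · exact (cond_iff' F hF hn).mpr hc
      · rw [if_neg hc, Set.indicator_of_notMem]
        intro h3
        exact hc ((cond_iff' F hF hn).mp h3)
    set D := ∫ x, A.indicator (1 : (Fin 1 → ℝ) → ℝ) x ∂(μ : Measure (Fin 1 → ℝ)) with hD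
    -- identification of the mean
    have hDd : D = d := by
      have h3 : Tendsto (fun N : ℕ => (((Finset.Icc 1 N).filter (fun n : ℕ =>
          (F n : ℝ) < Real.pi * (n : ℝ) ^ 2)).card : ℝ) / N) atTop (𝓝 D) := by
        rw [Metric.tendsto_atTop]
        intro η hη
        obtain ⟨N0, hN0⟩ := h1 (η / 2) (by positivity)
        refine ⟨max 1 N0, fun N hN => ?_⟩
        have hN1 : (0 : ℝ) < N := by
          have : 1 ≤ N := (le_max_left _ _).trans hN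
          exact_mod_cast this
        have h4 := hN0 N ((le_max_right _ _).trans hN) (fun _ => 1) (fun _ => by simp) (fun _ _ _ => by simp)
        have h5 : ∑ n ∈ Finset.Icc 1 N, (1 : ℂ) * ((A.indicator (1 : (Fin 1 → ℝ) → ℝ)
            (fun _ => Pool.Agent.H425R3.JL.Ec (((1 : ℕ) : ℝ) * (n : ℝ) ^ 2 + 0 * n + 0)) - D : ℝ) : ℂ) =
            (((((Finset.Icc 1 N).filter (fun n : ℕ =>
          (F n : ℝ) < Real.pi * (n : ℝ) ^ 2)).card : ℝ) - N * D : ℝ) : ℂ) := by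
          have h6 : ∀ n ∈ Finset.Icc 1 N, (1 : ℂ) * ((A.indicator (1 : (Fin 1 → ℝ) → ℝ)
              (fun _ => Pool.Agent.H425R3.JL.Ec (((1 : ℕ) : ℝ) * (n : ℝ) ^ 2 + 0 * n + 0)) - D : ℝ) : ℂ) =
              (((if (F n : ℝ) < Real.pi * (n : ℝ) ^ 2 then 1 else 0) - D : ℝ) : ℂ) := by
            intro n hn
            rw [one_mul, hind n (Finset.mem_Icc.mp hn).1]
          rw [Finset.sum_congr rfl h6, ← Complex.ofReal_sum, Finset.sum_sub_distrib, Finset.sum_const,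
            Nat.card_Icc, nsmul_eq_mul, Finset.card_filter]
          congr 2
          push_cast
          ring
        have h6 : |(((Finset.Icc 1 N).filter (fun n : ℕ =>
          (F n : ℝ) < Real.pi * (n : ℝ) ^ 2)).card : ℝ) - N * D| ≤ η / 2 * N := by
          rw [← Real.norm_eq_abs, ← Complex.norm_real, ← h5]
          exact h4
        rw [Real.dist_eq]
        have h7 : (((Finset.Icc 1 N).filter (fun n : ℕ =>
          (F n : ℝ) < Real.pi * (n : ℝ) ^ 2)).card : ℝ) / N - D =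
          ((((Finset.Icc 1 N).filter (fun n : ℕ =>
          (F n : ℝ) < Real.pi * (n : ℝ) ^ 2)).card : ℝ) - N * D) / N := by
          field_simp
        rw [h7, abs_div, abs_of_pos hN1, div_lt_iff₀ hN1]
        have : η / 2 * N < η * N := by nlinarith
        linarith
      exact tendsto_nhds_unique h3 hall
    rw [hDd] at h1 h2
    constructor
    · intro η hη
      obtain ⟨N0, hN0⟩ := h1 η hη
      refine ⟨N0, fun N hN g hg1 hg2 => ?_⟩
      have h3 := hN0 N hN g hg1 hg2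
      refine le_trans (le_of_eq ?_) h3
      congr 1
      apply Finset.sum_congr rfl
      intro n hn
      rw [← hind n (Finset.mem_Icc.mp hn).1]
    · intro w hw1 hw2
      refine (h2 w hw1 hw2).congr fun N => ?_
      congr 1
      apply Finset.sum_congr rfl
      intro n hn
      rw [← hind n (Finset.mem_Icc.mp hn).1]

end Pool.Agent.Results.MP_fb29e9_nt.IntegerRadiiBias
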