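import Mathlib
import Pool.Agent.Y969.QM4
import Pool.Agent.Y969.TW4
import Pool.Agent.H452R2.Circ.C1

/-!
# The circle problem for circles through lattice points

Let `z` be a random lattice point of an annulus `K ≤ |z|² < K + H` and look at the circle around the
origin through `z`.  Its normalised error term has the same limit law as for a random radius, with a power
saving for the difference of the averages of every Lipschitz function.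
-/

open Filter Topology MeasureTheory

namespace Pool.Agent.Results.MP_fb29e9_nt.LatticePointRadii

open Pool.Agent.H425R3.JL (Ec)

/-- number of representations -/
noncomputable def rr (m : ℕ) : ℝ := (Nat.card {p : ℤ × ℤ // p.1 ^ 2 + p.2 ^ 2 = (m : ℤ)} : ℝ)

/-- error term at an integer squared radius -/
noncomputable def Q (n : ℕ) : ℝ :=
  (Nat.card {p : ℤ × ℤ // (p.1 : ℝ) ^ 2 + (p.2 : ℝ) ^ 2 ≤ (n : ℝ)} : ℝ) - Real.pi * n

lemma finite_le (n : ℕ) : Finite {p : ℤ × ℤ // p.1 ^ 2 + p.2 ^ 2 ≤ (n : ℤ)} := by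
  have h : {p : ℤ × ℤ | p.1 ^ 2 + p.2 ^ 2 ≤ (n : ℤ)} ⊆
      (Set.Icc (-(n : ℤ)) n) ×ˢ (Set.Icc (-(n : ℤ)) n) := by
    rintro ⟨x, y⟩ hxy
    simp only [Set.mem_ofPred_eq] at hxy
    have key : ∀ z w : ℤ, z ^ 2 + w ^ 2 ≤ n → z ∈ Set.Icc (-(n : ℤ)) n := by
      intro z w hzw
      have h1 : z ^ 2 ≤ n := by nlinarith [sq_nonneg w]
      constructor
      · by_contra hc
        push Not at hc
        nlinarith [sq_nonneg (z + 1), Int.natCast_nonneg n]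
      · by_contra hc
        push Not at hc
        nlinarith [sq_nonneg (z - 1), Int.natCast_nonneg n]
    exact ⟨key x y hxy, key y x (by rw [add_comm]; exact hxy)⟩
  exact ((Set.finite_Icc _ _).prod (Set.finite_Icc _ _)).subset h

lemma Q_eq (n : ℕ) : Q n = (Nat.card {p : ℤ × ℤ // p.1 ^ 2 + p.2 ^ 2 ≤ (n : ℤ)} : ℝ) - Real.pi * n := by
  unfold Q
  congr 3
  congr 1
  funext p
  apply propext
  constructor
  · intro h; exact_mod_cast h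
  · intro h; exact_mod_cast h

lemma Q_succ (n : ℕ) : Q (n + 1) - Q n = rr (n + 1) - Real.pi := by
  have hf := finite_le n
  have hf1 := finite_le (n + 1)
  have hcard : Nat.card {p : ℤ × ℤ // p.1 ^ 2 + p.2 ^ 2 ≤ ((n + 1 : ℕ) : ℤ)} =
      Nat.card {p : ℤ × ℤ // p.1 ^ 2 + p.2 ^ 2 ≤ (n : ℤ)} +
      Nat.card {p : ℤ × ℤ // p.1 ^ 2 + p.2 ^ 2 = ((n + 1 : ℕ) : ℤ)} := by
    have h1 : {p : ℤ × ℤ | p.1 ^ 2 + p.2 ^ 2 ≤ ((n + 1 : ℕ) : ℤ)} =
        {p : ℤ × ℤ | p.1 ^ 2 + p.2 ^ 2 ≤ (n : ℤ)} ∪ {p : ℤ × ℤ | p.1 ^ 2 + p.2 ^ 2 = ((n + 1 : ℕ) : ℤ)} := by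
      ext p
      simp only [Set.mem_union, Set.mem_ofPred_eq]
      push_cast
      omega
    have hfin1 : {p : ℤ × ℤ | p.1 ^ 2 + p.2 ^ 2 ≤ (n : ℤ)}.Finite := hf
    have hfin2 : {p : ℤ × ℤ | p.1 ^ 2 + p.2 ^ 2 = ((n + 1 : ℕ) : ℤ)}.Finite :=
      Set.Finite.subset hf1 (by
        intro p hp
        exact le_of_eq hp)
    have hdis : Disjoint {p : ℤ × ℤ | p.1 ^ 2 + p.2 ^ 2 ≤ (n : ℤ)}
        {p : ℤ × ℤ | p.1 ^ 2 + p.2 ^ 2 = ((n + 1 : ℕ) : ℤ)} := by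
      rw [Set.disjoint_left]
      intro p hp hp'
      simp only [Set.mem_ofPred_eq] at hp hp'
      push_cast at hp'
      omega
    have h2 := Set.ncard_union_eq hdis hfin1 hfin2
    rw [← h1] at h2
    exact h2
  rw [Q_eq, Q_eq, hcard]
  unfold rr
  push_cast
  ring

/-- `Φ(n) = ∫_0^{Q(n)} f(t n^{-1/4}) dt` -/
noncomputable def Phi (f : ℝ → ℝ) (n : ℕ) : ℝ := ∫ t in (0 : ℝ)..(Q n), f (t * (n : ℝ) ^ (-(1 / 4) : ℝ))

lemma Ec_nat (n : ℕ) : Ec (n : ℝ) = Q n * (n : ℝ) ^ (-(1 / 4) : ℝ) := by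
  unfold Ec Q
  rw [Real.rpow_neg (Nat.cast_nonneg n), div_eq_mul_inv]

lemma pow_gap {n : ℕ} (hn : 1 ≤ n) :
    |(n : ℝ) ^ (-(1 / 4) : ℝ) - ((n + 1 : ℕ) : ℝ) ^ (-(1 / 4) : ℝ)| ≤ (n : ℝ) ^ (-(5 / 4) : ℝ) := by
  have hn0 : (0 : ℝ) < n := by exact_mod_cast hn
  have h1 : ((n + 1 : ℕ) : ℝ) ^ (-(1 / 4) : ℝ) ≤ (n : ℝ) ^ (-(1 / 4) : ℝ) :=
    Real.rpow_le_rpow_of_nonpos hn0 (by push_cast; linarith) (by norm_num)
  rw [abs_of_nonneg (by linarith)]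
  -- `(1 + 1/n)^{-1/4} ≥ 1 - 1/n`
  have h2 : ((n + 1 : ℕ) : ℝ) = (n : ℝ) * (1 + 1 / n) := by
    push_cast
    field_simp
  have h3 : 0 < 1 + 1 / (n : ℝ) := by positivity
  have h4 : 1 - 1 / (n : ℝ) ≤ (1 + 1 / (n : ℝ)) ^ (-(1 / 4) : ℝ) := by
    have h5 : (1 + 1 / (n : ℝ)) ^ (-(1 : ℝ)) ≤ (1 + 1 / (n : ℝ)) ^ (-(1 / 4) : ℝ) := by
      apply Real.rpow_le_rpow_of_exponent_le _ (by norm_num)
      have : 0 < 1 / (n : ℝ) := by positivity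
      linarith
    have h6 : 1 - 1 / (n : ℝ) ≤ (1 + 1 / (n : ℝ)) ^ (-(1 : ℝ)) := by
      rw [Real.rpow_neg_one, ← sub_nonneg]
      have : (1 + 1 / (n : ℝ))⁻¹ - (1 - 1 / (n : ℝ)) = 1 / ((n : ℝ) * (n + 1)) := by
        field_simp
        ring
      rw [this]
      positivity
    linarith
  have h7 : (n : ℝ) ^ (-(5 / 4) : ℝ) = (n : ℝ) ^ (-(1 / 4) : ℝ) * (1 / n) := by
    rw [show (-(5 / 4) : ℝ) = -(1 / 4) + (-1) from by norm_num, Real.rpow_add hn0, Real.rpow_neg_one,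
      one_div (n : ℝ)]
  rw [h7, h2, Real.mul_rpow hn0.le h3.le]
  have h8 : 0 < (n : ℝ) ^ (-(1 / 4) : ℝ) := by positivity
  nlinarith

/-- One step of the telescoping sum. -/
lemma step {f : ℝ → ℝ} {L : ℝ} (hL : 0 ≤ L) (hf : ∀ x y, |f x - f y| ≤ L * |x - y|) {n : ℕ} (hn : 1 ≤ n) :
    |(rr (n + 1) - Real.pi) * f (Ec ((n + 1 : ℕ) : ℝ)) - (Phi f (n + 1) - Phi f n)| ≤
      L * (rr (n + 1) - Real.pi) ^ 2 * ((n + 1 : ℕ) : ℝ) ^ (-(1 / 4) : ℝ) +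
      L * (Q n) ^ 2 * (n : ℝ) ^ (-(5 / 4) : ℝ) := by
  have hcont : Continuous f := by
    have : LipschitzWith ⟨L, hL⟩ f := LipschitzWith.of_dist_le_mul fun x y => by
      rw [Real.dist_eq, Real.dist_eq]
      exact hf x y
    exact this.continuous
  set s : ℝ := ((n + 1 : ℕ) : ℝ) ^ (-(1 / 4) : ℝ) with hs
  set s' : ℝ := (n : ℝ) ^ (-(1 / 4) : ℝ) with hs'
  have hs0 : 0 ≤ s := by positivity
  have hc1 : ∀ a b u : ℝ, IntervalIntegrable (fun t => f (t * u)) volume a b := fun a b u =>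
    (hcont.comp (continuous_id.mul continuous_const)).intervalIntegrable a b
  have e1 : Phi f (n + 1) - Phi f n =
      (∫ t in (Q n)..(Q (n + 1)), f (t * s)) + ∫ t in (0 : ℝ)..(Q n), (f (t * s) - f (t * s')) := by
    unfold Phi
    rw [intervalIntegral.integral_sub (hc1 _ _ _) (hc1 _ _ _),
      ← intervalIntegral.integral_add_adjacent_intervals (hc1 0 (Q n) s) (hc1 (Q n) (Q (n + 1)) s)]
    ring
  have e2 : (rr (n + 1) - Real.pi) * f (Ec ((n + 1 : ℕ) : ℝ)) =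
      ∫ _t in (Q n)..(Q (n + 1)), f (Q (n + 1) * s) := by
    rw [intervalIntegral.integral_const, smul_eq_mul, Q_succ, Ec_nat]
  have e3 : (rr (n + 1) - Real.pi) * f (Ec ((n + 1 : ℕ) : ℝ)) - (Phi f (n + 1) - Phi f n) =
      (∫ t in (Q n)..(Q (n + 1)), (f (Q (n + 1) * s) - f (t * s))) -
        ∫ t in (0 : ℝ)..(Q n), (f (t * s) - f (t * s')) := by
    rw [e1, e2, intervalIntegral.integral_sub intervalIntegrable_const (hc1 _ _ _)]
    ring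
  rw [e3]
  refine (abs_sub _ _).trans (add_le_add ?_ ?_)
  · have h1 : ∀ t ∈ Set.uIoc (Q n) (Q (n + 1)), ‖f (Q (n + 1) * s) - f (t * s)‖ ≤
        L * (|rr (n + 1) - Real.pi| * s) := by
      intro t ht
      rw [Real.norm_eq_abs]
      refine (hf _ _).trans (mul_le_mul_of_nonneg_left ?_ hL)
      rw [← sub_mul, abs_mul, abs_of_nonneg hs0]
      apply mul_le_mul_of_nonneg_right _ hs0
      rw [← Q_succ]
      exact Set.abs_sub_right_of_mem_uIcc (Set.uIoc_subset_uIcc ht)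
    have h2 := intervalIntegral.norm_integral_le_of_norm_le_const h1
    rw [Q_succ, Real.norm_eq_abs] at h2
    refine h2.trans (le_of_eq ?_)
    rw [← sq_abs (rr (n + 1) - Real.pi)]
    ring
  · have h1 : ∀ t ∈ Set.uIoc (0 : ℝ) (Q n), ‖f (t * s) - f (t * s')‖ ≤
        L * (|Q n| * (n : ℝ) ^ (-(5 / 4) : ℝ)) := by
      intro t ht
      rw [Real.norm_eq_abs]
      refine (hf _ _).trans (mul_le_mul_of_nonneg_left ?_ hL)
      rw [← mul_sub, abs_mul]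
      apply mul_le_mul
      · have h2 := Set.uIoc_subset_uIcc ht
        have h3 := Set.abs_sub_left_of_mem_uIcc h2
        rwa [sub_zero, sub_zero] at h3
      · rw [abs_sub_comm]
        exact pow_gap hn
      · exact abs_nonneg _
      · exact abs_nonneg _
    have h2 := intervalIntegral.norm_integral_le_of_norm_le_const h1
    rw [sub_zero, Real.norm_eq_abs] at h2
    refine h2.trans (le_of_eq ?_)
    rw [← sq_abs (Q n)]
    ring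

lemma Phi_le {f : ℝ → ℝ} {L : ℝ} (hL : 0 ≤ L) (hf : ∀ x y, |f x - f y| ≤ L * |x - y|) (n : ℕ) :
    |Phi f n| ≤ |f 0| * |Q n| + L * (Q n) ^ 2 * (n : ℝ) ^ (-(1 / 4) : ℝ) := by
  set s : ℝ := (n : ℝ) ^ (-(1 / 4) : ℝ) with hs
  have hs0 : 0 ≤ s := by positivity
  have h1 : ∀ t ∈ Set.uIoc (0 : ℝ) (Q n), ‖f (t * s)‖ ≤ |f 0| + L * (|Q n| * s) := by
    intro t ht
    rw [Real.norm_eq_abs]
    have h2 := hf (t * s) 0
    rw [sub_zero, abs_mul, abs_of_nonneg hs0] at h2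
    have h3 := Set.abs_sub_left_of_mem_uIcc (Set.uIoc_subset_uIcc ht)
    rw [sub_zero, sub_zero] at h3
    have h4 : |f (t * s)| ≤ |f 0| + |f (t * s) - f 0| := by
      have := abs_add_le (f 0) (f (t * s) - f 0)
      rwa [add_sub_cancel] at this
    have h5 : L * (|t| * s) ≤ L * (|Q n| * s) := by gcongr
    linarith
  have h2 := intervalIntegral.norm_integral_le_of_norm_le_const h1
  rw [sub_zero, Real.norm_eq_abs] at h2
  refine h2.trans (le_of_eq ?_)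
  rw [← sq_abs (Q n)]
  ring


/-! ### Bounds from the library -/

lemma rr_bound {κ : ℝ} (hκ : 0 < κ) : ∃ C : ℝ, 0 < C ∧ ∀ m : ℕ, 1 ≤ m → |rr m - Real.pi| ≤ C * (m : ℝ) ^ κ := by
  obtain ⟨C, hC, h⟩ := Pool.Agent.H452R2.Win.ag_Bdw κ hκ
  refine ⟨Real.pi * C + Real.pi, by positivity, fun m hm => ?_⟩
  have hm0 : (0 : ℝ) < m := by exact_mod_cast hm
  have h1 := h m hm
  rw [Pool.Agent.W24.CP.SR.ag_all, abs_of_nonneg (by positivity)] at h1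
  have h2 : rr m ≤ Real.pi * C * (m : ℝ) ^ κ := by
    have h3 : rr m = Real.pi * (m : ℝ) ^ (3 / 4 : ℝ) * (rr m / Real.pi * (m : ℝ) ^ (-(3 / 4) : ℝ)) := by
      rw [Real.rpow_neg hm0.le]
      have : (m : ℝ) ^ (3 / 4 : ℝ) ≠ 0 := by positivity
      field_simp
    have h4 : (m : ℝ) ^ (3 / 4 : ℝ) * (m : ℝ) ^ (-(3 / 4) + κ : ℝ) = (m : ℝ) ^ κ := by
      rw [← Real.rpow_add hm0]
      congr 1
      ring
    calc rr m = Real.pi * (m : ℝ) ^ (3 / 4 : ℝ) * (rr m / Real.pi * (m : ℝ) ^ (-(3 / 4) : ℝ)) := h3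
      _ ≤ Real.pi * (m : ℝ) ^ (3 / 4 : ℝ) * (C * (m : ℝ) ^ (-(3 / 4) + κ : ℝ)) :=
          mul_le_mul_of_nonneg_left h1 (by positivity)
      _ = Real.pi * C * ((m : ℝ) ^ (3 / 4 : ℝ) * (m : ℝ) ^ (-(3 / 4) + κ : ℝ)) := by ring
      _ = _ := by rw [h4]
  have h5 : 1 ≤ (m : ℝ) ^ κ := Real.one_le_rpow (by exact_mod_cast hm) hκ.le
  have h6 : 0 ≤ rr m := Nat.cast_nonneg _
  have hpi := Real.pi_pos
  rw [abs_le]
  constructor
  · nlinarith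
  · nlinarith

lemma Q_bound {κ : ℝ} (hκ : 0 < κ) : ∃ C : ℝ, 0 < C ∧ ∀ n : ℕ, 1 ≤ n → |Q n| ≤ C * (n : ℝ) ^ (1 / 3 + κ) := by
  obtain ⟨C, hC, h⟩ := Pool.Agent.H452R2.Circ.ms_short_pert (α := 1) one_pos (S := 0) le_rfl
    (ε := 4 * κ) (by positivity)
  refine ⟨√(C * 2 ^ (1 + 4 * κ) * 2), by positivity, fun n hn => ?_⟩
  have hn1 : (1 : ℝ) ≤ n := by exact_mod_cast hn
  have hn0 : (0 : ℝ) < n := by linarith
  have hX : 1 ≤ √(n : ℝ) := Real.one_le_sqrt.mpr hn1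
  have h1 := h (√(n : ℝ)) hX 1 (fun _ => (n : ℝ)) (by
    intro j hj
    have : j = 0 := by omega
    subst this
    refine ⟨hn1, ?_⟩
    rw [Nat.cast_zero, zero_mul, add_zero, Real.sq_sqrt hn0.le, sub_self, abs_zero])
  simp only [Finset.range_one, Finset.sum_singleton, Nat.cast_one, one_mul] at h1
  have h2 : (√(n : ℝ) + 1) ^ (1 + 4 * κ) ≤ 2 ^ (1 + 4 * κ) * (√(n : ℝ)) ^ (1 + 4 * κ) := by
    rw [← Real.mul_rpow (by norm_num) (by positivity)]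
    exact Real.rpow_le_rpow (by positivity) (by linarith) (by positivity)
  have h3 : 1 + (√(n : ℝ)) ^ (1 / 3 : ℝ) ≤ 2 * (√(n : ℝ)) ^ (1 / 3 : ℝ) := by
    have := Real.one_le_rpow hX (show (0 : ℝ) ≤ 1 / 3 by norm_num)
    linarith
  have h4 : (√(n : ℝ)) ^ (1 + 4 * κ) * (√(n : ℝ)) ^ (1 / 3 : ℝ) = ((n : ℝ) ^ (1 / 3 + κ)) ^ 2 := by
    rw [← Real.rpow_add (by positivity), Real.sqrt_eq_rpow, ← Real.rpow_mul hn0.le,
      ← Real.rpow_natCast, ← Real.rpow_mul hn0.le]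
    congr 1
    push_cast
    ring
  have h5 : (Q n) ^ 2 ≤ (C * 2 ^ (1 + 4 * κ) * 2) * ((n : ℝ) ^ (1 / 3 + κ)) ^ 2 := by
    calc (Q n) ^ 2 ≤ C * (√(n : ℝ) + 1) ^ (1 + 4 * κ) * (1 + (√(n : ℝ)) ^ (1 / 3 : ℝ)) := h1
      _ ≤ C * (2 ^ (1 + 4 * κ) * (√(n : ℝ)) ^ (1 + 4 * κ)) * (2 * (√(n : ℝ)) ^ (1 / 3 : ℝ)) := by
          gcongr
      _ = (C * 2 ^ (1 + 4 * κ) * 2) * ((√(n : ℝ)) ^ (1 + 4 * κ) * (√(n : ℝ)) ^ (1 / 3 : ℝ)) := by ring
      _ = _ := by rw [h4]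
  have h6 : 0 ≤ √(C * 2 ^ (1 + 4 * κ) * 2) * (n : ℝ) ^ (1 / 3 + κ) := by positivity
  apply abs_le_of_sq_le_sq _ h6
  rw [mul_pow, Real.sq_sqrt (by positivity)]
  exact h5

/-- The decorrelation, for windows starting at `K ≥ 2`. -/
lemma window_two {ε : ℝ} (hε : 0 < ε) : ∃ C : ℝ, 0 < C ∧ ∀ (L : ℝ) (f : ℝ → ℝ), 0 ≤ L →
    (∀ x y, |f x - f y| ≤ L * |x - y|) → ∀ K H : ℕ, 2 ≤ K → H ≤ K →
    |∑ n ∈ Finset.Ico K (K + H), (rr n - Real.pi) * f (Ec (n : ℝ))| ≤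
      C * (|f 0| + L) * ((K : ℝ) ^ (5 / 12 + ε) + H * (K : ℝ) ^ (-(1 / 4) + ε)) := by
  set κ : ℝ := min ε (1 / 4) / 2 with hκ
  have hκ0 : 0 < κ := by positivity
  have hκε : 2 * κ ≤ ε := by
    have := min_le_left ε (1 / 4)
    linarith
  have hκ4 : 2 * κ ≤ 1 / 4 := by
    have := min_le_right ε (1 / 4)
    linarith
  obtain ⟨C1, hC1, hr⟩ := rr_bound hκ0
  obtain ⟨C2, hC2, hQ⟩ := Q_bound hκ0
  set M : ℝ := 2 ^ (5 / 12 + ε) with hM
  have hM0 : 0 < M := by positivity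
  refine ⟨C1 ^ 2 + 2 * C2 ^ 2 + 2 * (C2 + C2 ^ 2) * M, by positivity, ?_⟩
  intro L f hL hf K H hK hH
  have hK0 : (0 : ℝ) < K := by
    have : 0 < K := by omega
    exact_mod_cast this
  have hK1 : (1 : ℝ) ≤ K := by
    have : 1 ≤ K := by omega
    exact_mod_cast this
  -- bounds for Phi
  have hPhi : ∀ N : ℕ, 1 ≤ N → N ≤ 2 * K → |Phi f N| ≤ (|f 0| + L) * ((C2 + C2 ^ 2) * M) * (K : ℝ) ^ (5 / 12 + ε) := by
    intro N hN hNK
    have hN1 : (1 : ℝ) ≤ N := by exact_mod_cast hN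
    have hN0 : (0 : ℝ) < N := by linarith
    have hNK' : (N : ℝ) ≤ 2 * K := by exact_mod_cast hNK
    have h1 := Phi_le hL hf N
    have h2 := hQ N hN
    have h3 : (N : ℝ) ^ (1 / 3 + κ) ≤ (N : ℝ) ^ (5 / 12 + ε) :=
      Real.rpow_le_rpow_of_exponent_le hN1 (by linarith)
    have h4 : (N : ℝ) ^ (5 / 12 + ε) ≤ M * (K : ℝ) ^ (5 / 12 + ε) := by
      rw [hM, ← Real.mul_rpow (by norm_num) hK0.le]
      exact Real.rpow_le_rpow hN0.le hNK' (by positivity)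
    have h5 : (Q N) ^ 2 * (N : ℝ) ^ (-(1 / 4) : ℝ) ≤ C2 ^ 2 * (N : ℝ) ^ (5 / 12 + ε) := by
      have h6 : (Q N) ^ 2 ≤ (C2 * (N : ℝ) ^ (1 / 3 + κ)) ^ 2 := by
        rw [← sq_abs (Q N)]
        exact pow_le_pow_left₀ (abs_nonneg _) h2 2
      have h7 : ((N : ℝ) ^ (1 / 3 + κ)) ^ 2 * (N : ℝ) ^ (-(1 / 4) : ℝ) = (N : ℝ) ^ (5 / 12 + 2 * κ) := by
        rw [← Real.rpow_natCast, ← Real.rpow_mul hN0.le, ← Real.rpow_add hN0]
        congr 1
        push_cast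
        ring
      calc _ ≤ (C2 * (N : ℝ) ^ (1 / 3 + κ)) ^ 2 * (N : ℝ) ^ (-(1 / 4) : ℝ) :=
            mul_le_mul_of_nonneg_right h6 (by positivity)
        _ = C2 ^ 2 * (((N : ℝ) ^ (1 / 3 + κ)) ^ 2 * (N : ℝ) ^ (-(1 / 4) : ℝ)) := by ring
        _ = C2 ^ 2 * (N : ℝ) ^ (5 / 12 + 2 * κ) := by rw [h7]
        _ ≤ _ := by
            apply mul_le_mul_of_nonneg_left _ (by positivity)
            exact Real.rpow_le_rpow_of_exponent_le hN1 (by linarith)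
    have hf0 := abs_nonneg (f 0)
    have h8 : |Q N| ≤ C2 * (M * (K : ℝ) ^ (5 / 12 + ε)) :=
      h2.trans (mul_le_mul_of_nonneg_left (h3.trans h4) hC2.le)
    have h9 : (Q N) ^ 2 * (N : ℝ) ^ (-(1 / 4) : ℝ) ≤ C2 ^ 2 * (M * (K : ℝ) ^ (5 / 12 + ε)) :=
      h5.trans (mul_le_mul_of_nonneg_left h4 (by positivity))
    have h10 : 0 ≤ M * (K : ℝ) ^ (5 / 12 + ε) := by positivity
    calc |Phi f N| ≤ |f 0| * |Q N| + L * ((Q N) ^ 2 * (N : ℝ) ^ (-(1 / 4) : ℝ)) := by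
          rw [← mul_assoc]
          exact h1
      _ ≤ |f 0| * (C2 * (M * (K : ℝ) ^ (5 / 12 + ε))) + L * (C2 ^ 2 * (M * (K : ℝ) ^ (5 / 12 + ε))) :=
          add_le_add (mul_le_mul_of_nonneg_left h8 hf0) (mul_le_mul_of_nonneg_left h9 hL)
      _ ≤ _ := by
          have e1 : 0 ≤ |f 0| * (C2 ^ 2 * (M * (K : ℝ) ^ (5 / 12 + ε))) := by positivity
          have e2 : 0 ≤ L * (C2 * (M * (K : ℝ) ^ (5 / 12 + ε))) := by positivity
          nlinarith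
  -- the errors
  have herr : ∀ m ∈ Finset.Ico (K - 1) (K - 1 + H),
      |(rr (m + 1) - Real.pi) * f (Ec ((m + 1 : ℕ) : ℝ)) - (Phi f (m + 1) - Phi f m)| ≤
        L * (C1 ^ 2 + 2 * C2 ^ 2) * (K : ℝ) ^ (-(1 / 4) + ε) := by
    intro m hm
    rw [Finset.mem_Ico] at hm
    have hm1 : 1 ≤ m := by omega
    have hm0 : (0 : ℝ) < m := by exact_mod_cast hm1
    have hmK : (K : ℝ) ≤ ((m + 1 : ℕ) : ℝ) := by
      have : K ≤ m + 1 := by omega
      exact_mod_cast this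
    have hm2K : (K : ℝ) / 2 ≤ m := by
      have h1 : K ≤ 2 * m := by omega
      have h2 : (K : ℝ) ≤ 2 * m := by exact_mod_cast h1
      linarith
    refine (step hL hf hm1).trans ?_
    have h1 : (rr (m + 1) - Real.pi) ^ 2 * ((m + 1 : ℕ) : ℝ) ^ (-(1 / 4) : ℝ) ≤
        C1 ^ 2 * (K : ℝ) ^ (-(1 / 4) + ε) := by
      have hm10 : (0 : ℝ) < ((m + 1 : ℕ) : ℝ) := by positivity
      have h2 := hr (m + 1) (by omega)
      have h3 : (rr (m + 1) - Real.pi) ^ 2 ≤ (C1 * ((m + 1 : ℕ) : ℝ) ^ κ) ^ 2 := by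
        rw [← sq_abs (rr (m + 1) - Real.pi)]
        exact pow_le_pow_left₀ (abs_nonneg _) h2 2
      have h4 : (((m + 1 : ℕ) : ℝ) ^ κ) ^ 2 * ((m + 1 : ℕ) : ℝ) ^ (-(1 / 4) : ℝ) =
          ((m + 1 : ℕ) : ℝ) ^ (-(1 / 4) + 2 * κ) := by
        rw [← Real.rpow_natCast, ← Real.rpow_mul hm10.le, ← Real.rpow_add hm10]
        congr 1
        push_cast
        ring
      calc _ ≤ (C1 * ((m + 1 : ℕ) : ℝ) ^ κ) ^ 2 * ((m + 1 : ℕ) : ℝ) ^ (-(1 / 4) : ℝ) :=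
            mul_le_mul_of_nonneg_right h3 (by positivity)
        _ = C1 ^ 2 * ((((m + 1 : ℕ) : ℝ) ^ κ) ^ 2 * ((m + 1 : ℕ) : ℝ) ^ (-(1 / 4) : ℝ)) := by ring
        _ = C1 ^ 2 * ((m + 1 : ℕ) : ℝ) ^ (-(1 / 4) + 2 * κ) := by rw [h4]
        _ ≤ C1 ^ 2 * (K : ℝ) ^ (-(1 / 4) + 2 * κ) := by
            apply mul_le_mul_of_nonneg_left _ (by positivity)
            exact Real.rpow_le_rpow_of_nonpos hK0 hmK (by linarith)
        _ ≤ _ := by
            apply mul_le_mul_of_nonneg_left _ (by positivity)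
            exact Real.rpow_le_rpow_of_exponent_le hK1 (by linarith)
    have h5 : (Q m) ^ 2 * (m : ℝ) ^ (-(5 / 4) : ℝ) ≤ 2 * C2 ^ 2 * (K : ℝ) ^ (-(1 / 4) + ε) := by
      have h2 := hQ m hm1
      have h3 : (Q m) ^ 2 ≤ (C2 * (m : ℝ) ^ (1 / 3 + κ)) ^ 2 := by
        rw [← sq_abs (Q m)]
        exact pow_le_pow_left₀ (abs_nonneg _) h2 2
      have h4 : ((m : ℝ) ^ (1 / 3 + κ)) ^ 2 * (m : ℝ) ^ (-(5 / 4) : ℝ) = (m : ℝ) ^ (-(7 / 12) + 2 * κ) := by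
        rw [← Real.rpow_natCast, ← Real.rpow_mul hm0.le, ← Real.rpow_add hm0]
        congr 1
        push_cast
        ring
      have h6 : ((K : ℝ) / 2) ^ (-(7 / 12) + 2 * κ) ≤ 2 * (K : ℝ) ^ (-(7 / 12) + 2 * κ) := by
        rw [div_eq_mul_inv, mul_comm, Real.mul_rpow (by norm_num) hK0.le]
        apply mul_le_mul_of_nonneg_right _ (by positivity)
        rw [Real.inv_rpow (by norm_num), ← Real.rpow_neg (by norm_num)]
        calc (2 : ℝ) ^ (-(-(7 / 12) + 2 * κ)) ≤ (2 : ℝ) ^ (1 : ℝ) :=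
              Real.rpow_le_rpow_of_exponent_le (by norm_num) (by linarith)
          _ = 2 := Real.rpow_one 2
      calc _ ≤ (C2 * (m : ℝ) ^ (1 / 3 + κ)) ^ 2 * (m : ℝ) ^ (-(5 / 4) : ℝ) :=
            mul_le_mul_of_nonneg_right h3 (by positivity)
        _ = C2 ^ 2 * (((m : ℝ) ^ (1 / 3 + κ)) ^ 2 * (m : ℝ) ^ (-(5 / 4) : ℝ)) := by ring
        _ = C2 ^ 2 * (m : ℝ) ^ (-(7 / 12) + 2 * κ) := by rw [h4]
        _ ≤ C2 ^ 2 * ((K : ℝ) / 2) ^ (-(7 / 12) + 2 * κ) := by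
            apply mul_le_mul_of_nonneg_left _ (by positivity)
            exact Real.rpow_le_rpow_of_nonpos (by positivity) hm2K (by linarith)
        _ ≤ C2 ^ 2 * (2 * (K : ℝ) ^ (-(7 / 12) + 2 * κ)) := by
            apply mul_le_mul_of_nonneg_left h6 (by positivity)
        _ = 2 * C2 ^ 2 * (K : ℝ) ^ (-(7 / 12) + 2 * κ) := by ring
        _ ≤ _ := by
            apply mul_le_mul_of_nonneg_left _ (by positivity)
            exact Real.rpow_le_rpow_of_exponent_le hK1 (by linarith)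
    calc _ = L * ((rr (m + 1) - Real.pi) ^ 2 * ((m + 1 : ℕ) : ℝ) ^ (-(1 / 4) : ℝ)) +
          L * ((Q m) ^ 2 * (m : ℝ) ^ (-(5 / 4) : ℝ)) := by ring
      _ ≤ L * (C1 ^ 2 * (K : ℝ) ^ (-(1 / 4) + ε)) + L * (2 * C2 ^ 2 * (K : ℝ) ^ (-(1 / 4) + ε)) :=
          add_le_add (mul_le_mul_of_nonneg_left h1 hL) (mul_le_mul_of_nonneg_left h5 hL)
      _ = _ := by ring
  -- the telescoping sum
  have e1 : ∑ n ∈ Finset.Ico K (K + H), (rr n - Real.pi) * f (Ec (n : ℝ)) =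
      ∑ m ∈ Finset.Ico (K - 1) (K - 1 + H), (rr (m + 1) - Real.pi) * f (Ec ((m + 1 : ℕ) : ℝ)) := by
    have h1 := Finset.sum_Ico_add' (fun n : ℕ => (rr n - Real.pi) * f (Ec (n : ℝ))) (K - 1) (K - 1 + H) 1
    rw [show K - 1 + 1 = K from by omega, show K - 1 + H + 1 = K + H from by omega] at h1
    exact h1.symm
  have e2 : ∑ m ∈ Finset.Ico (K - 1) (K - 1 + H), (Phi f (m + 1) - Phi f m) =
      Phi f (K - 1 + H) - Phi f (K - 1) := Finset.sum_Ico_sub (Phi f) (by omega)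
  have e3 : ∑ n ∈ Finset.Ico K (K + H), (rr n - Real.pi) * f (Ec (n : ℝ)) =
      ∑ m ∈ Finset.Ico (K - 1) (K - 1 + H), ((rr (m + 1) - Real.pi) * f (Ec ((m + 1 : ℕ) : ℝ)) -
        (Phi f (m + 1) - Phi f m)) + (Phi f (K - 1 + H) - Phi f (K - 1)) := by
    rw [e1, Finset.sum_sub_distrib, e2]
    ring
  rw [e3]
  have h1 : |∑ m ∈ Finset.Ico (K - 1) (K - 1 + H), ((rr (m + 1) - Real.pi) * f (Ec ((m + 1 : ℕ) : ℝ)) -
        (Phi f (m + 1) - Phi f m))| ≤ H * (L * (C1 ^ 2 + 2 * C2 ^ 2) * (K : ℝ) ^ (-(1 / 4) + ε)) := by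
    refine (Finset.abs_sum_le_sum_abs _ _).trans ((Finset.sum_le_sum herr).trans (le_of_eq ?_))
    rw [Finset.sum_const, Nat.card_Ico, nsmul_eq_mul, Nat.add_sub_cancel_left]
  have h2 := hPhi (K - 1 + H) (by omega) (by omega)
  have h3 := hPhi (K - 1) (by omega) (by omega)
  have h4 : |Phi f (K - 1 + H) - Phi f (K - 1)| ≤
      2 * ((|f 0| + L) * ((C2 + C2 ^ 2) * M) * (K : ℝ) ^ (5 / 12 + ε)) := by
    have := abs_sub (Phi f (K - 1 + H)) (Phi f (K - 1))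
    linarith
  refine (abs_add_le _ _).trans ?_
  have hf0 := abs_nonneg (f 0)
  have g1 : 0 ≤ (K : ℝ) ^ (5 / 12 + ε) := by positivity
  have g2 : 0 ≤ (H : ℝ) * (K : ℝ) ^ (-(1 / 4) + ε) := by positivity
  have g3 : 0 ≤ |f 0| + L := by positivity
  have g4 : (H : ℝ) * (L * (C1 ^ 2 + 2 * C2 ^ 2) * (K : ℝ) ^ (-(1 / 4) + ε)) ≤
      (C1 ^ 2 + 2 * C2 ^ 2) * (|f 0| + L) * (H * (K : ℝ) ^ (-(1 / 4) + ε)) := by
    have : L * ((C1 ^ 2 + 2 * C2 ^ 2) * (H * (K : ℝ) ^ (-(1 / 4) + ε))) ≤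
        (|f 0| + L) * ((C1 ^ 2 + 2 * C2 ^ 2) * (H * (K : ℝ) ^ (-(1 / 4) + ε))) :=
      mul_le_mul_of_nonneg_right (by linarith) (by positivity)
    calc _ = L * ((C1 ^ 2 + 2 * C2 ^ 2) * (H * (K : ℝ) ^ (-(1 / 4) + ε))) := by ring
      _ ≤ _ := this
      _ = _ := by ring
  have g5 : 0 ≤ (C1 ^ 2 + 2 * C2 ^ 2) * (|f 0| + L) * (K : ℝ) ^ (5 / 12 + ε) := by positivity
  have g6 : 0 ≤ 2 * (C2 + C2 ^ 2) * M * (|f 0| + L) * (H * (K : ℝ) ^ (-(1 / 4) + ε)) := by positivity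
  calc _ ≤ (C1 ^ 2 + 2 * C2 ^ 2) * (|f 0| + L) * (H * (K : ℝ) ^ (-(1 / 4) + ε)) +
        2 * ((|f 0| + L) * ((C2 + C2 ^ 2) * M) * (K : ℝ) ^ (5 / 12 + ε)) :=
        add_le_add (h1.trans g4) h4
    _ ≤ _ := by nlinarith


/-! ### The limit law in windows -/

open Pool.Agent.H383 Pool.Agent.H452R2.Win Pool.Agent.H452R2.Om Pool.Agent.H469R2.NK in
open Pool.Agent.H383.Gen (Bd U Ap) in
open Pool.Agent.Y969.TM in
open Pool.Agent.H425R3.JL (PR fav cav q ApU Ec Edv) in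
open Pool.Agent.W24.CP.SU Pool.Agent.Y969.SW in
open Pool.Agent.H383.Gauss Pool.Agent.H383.Circ in
open Classical in
/-- truncated averages in windows, with the properties of the law -/
lemma law_trunc (r : ℕ → ℕ) (hr : ∀ m : ℕ, r m = Nat.card {p : ℤ × ℤ // p.1 ^ 2 + p.2 ^ 2 = (m : ℤ)}) :
    ∃ (ν : ProbabilityMeasure ℝ) (G : ℂ → ℂ),
      Differentiable ℂ G ∧ (∀ x : ℝ, 0 ≤ (G x).re ∧ (G x).im = 0) ∧
      (ν : Measure ℝ) = volume.withDensity (fun x : ℝ => ENNReal.ofReal (G x).re) ∧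
      (∀ u v : ℝ, u < v → 0 < (ν : Measure ℝ) (Set.Ioo u v)) ∧
      ∀ δ : ℝ, 0 < δ → ∃ c₀ : ℝ, 0 < c₀ ∧ ∀ c : ℝ, 0 < c → c ≤ c₀ → ∀ f : ℝ → ℝ, Continuous f →
        (∃ B : ℝ, ∀ x, |f x| ≤ B) → ∀ η : ℝ, 0 < η → ∃ N₀ : ℕ, ∀ N : ℕ, N₀ ≤ N →
        ∀ H : ℕ, H ≤ N → (N : ℝ) ^ (1 / 2 + δ) ≤ H →
          |∑ n ∈ (Finset.Ico N (N + H)).filter (fun n : ℕ => |Ec (n : ℝ)| ≤ (n : ℝ) ^ c),
              f (Ec (n : ℝ)) - H * ∫ x, f x ∂(ν : Measure ℝ)| ≤ η * H := by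
  obtain ⟨ν, G, g1, g2, g3, g4, hν⟩ := Pool.Agent.W24.CP.SR.circ_lin r hr
  refine ⟨ν, G, g1, g2, g3, g4, ?_⟩
  obtain ⟨μ, -, m2, m3, m4, m5, -⟩ := hν 1 (fun _ => 1) (fun _ => 0) (fun _ => one_pos)
  have hev : ∀ n : ℕ, Pool.Agent.W24.CP.SU.ev En 1 (fun _ : Fin 1 => 1) (fun _ => 0) n =
      fun _ => Ec (((1 : ℕ) : ℝ) * n + ((0 : ℕ) : ℝ)) := by
    intro n; funext i
    unfold Pool.Agent.W24.CP.SU.ev
    rw [one_mul, ← Pool.Agent.H425R3.JL.Ec_eq (by positivity)]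
    congr 1
    push_cast
    rfl
  obtain ⟨-, h2⟩ := lin_trunc ag_Bdw ag_zero wg_Wt En_SandW one_pos (fun _ : Fin 1 => 1) (fun _ => 0)
    (fun i => le_rfl) (μ := μ)
    (fun f hf hC => by
      have := (laws_of (F := fun (n : ℕ) (_ : Fin 1) => Ec (((1 : ℕ) : ℝ) * n + ((0 : ℕ) : ℝ))) (m5 f hf hC)).1
      simp only [hev]
      exact this)
    (fun f hf hC => by
      have := (laws_of (F := fun (n : ℕ) (_ : Fin 1) => Ec (((1 : ℕ) : ℝ) * n + ((0 : ℕ) : ℝ))) (m5 f hf hC)).2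
      simp only [hev]
      exact this) (p := 1) one_pos
  intro δ hδ
  obtain ⟨c₀, hc₀, h3⟩ := h2 δ hδ
  refine ⟨c₀, hc₀, fun c hc hc2 f hf hB η hη => ?_⟩
  obtain ⟨B, hB⟩ := hB
  have hB0 : 0 ≤ B := (abs_nonneg (f 0)).trans (hB 0)
  obtain ⟨N0, h4⟩ := h3 c hc hc2 (fun x => f (x 0)) (hf.comp (continuous_apply 0)) ⟨B, fun x => by
    have h5 : 0 ≤ ‖x‖ ^ (1 : ℝ) := by positivity
    have h6 := hB (x 0)
    nlinarith⟩ η hη
  refine ⟨N0, fun N hN H hH hNH => ?_⟩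
  have h5 := (h4 N hN).1 H hH hNH
  simp only [filt_win, hev] at h5
  have hint : ∫ x, f (x 0) ∂(μ : Measure (Fin 1 → ℝ)) = ∫ x, f x ∂(ν : Measure ℝ) := by
    rw [← m2 0, integral_map (measurable_pi_apply 0).aemeasurable hf.aestronglyMeasurable]
  rw [hint] at h5
  refine le_trans (le_of_eq ?_) h5
  congr 2
  have hone : ∀ n : ℕ, ((1 : ℕ) : ℝ) * (n : ℝ) + ((0 : ℕ) : ℝ) = n := fun n => by push_cast; ring
  simp only [hone]
  apply Finset.sum_congr _ fun _ _ => rfl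
  apply Finset.filter_congr
  intro n _
  constructor
  · intro h _
    exact h
  · intro h
    exact h 0

/-- For bounded continuous functions the truncation can be dropped. -/
lemma law_win (r : ℕ → ℕ) (hr : ∀ m : ℕ, r m = Nat.card {p : ℤ × ℤ // p.1 ^ 2 + p.2 ^ 2 = (m : ℤ)}) :
    ∃ (ν : ProbabilityMeasure ℝ) (G : ℂ → ℂ),
      Differentiable ℂ G ∧ (∀ x : ℝ, 0 ≤ (G x).re ∧ (G x).im = 0) ∧
      (ν : Measure ℝ) = volume.withDensity (fun x : ℝ => ENNReal.ofReal (G x).re) ∧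
      (∀ u v : ℝ, u < v → 0 < (ν : Measure ℝ) (Set.Ioo u v)) ∧
      ∀ f : ℝ → ℝ, Continuous f → (∃ B : ℝ, ∀ x, |f x| ≤ B) → ∀ δ : ℝ, 0 < δ → ∀ η : ℝ, 0 < η →
        ∃ N₀ : ℕ, ∀ N : ℕ, N₀ ≤ N → ∀ H : ℕ, H ≤ N → (N : ℝ) ^ (1 / 2 + δ) ≤ H →
          |∑ n ∈ Finset.Ico N (N + H), f (Ec (n : ℝ)) - H * ∫ x, f x ∂(ν : Measure ℝ)| ≤ η * H := by
  classical
  obtain ⟨ν, G, g1, g2, g3, g4, hν⟩ := law_trunc r hr
  refine ⟨ν, G, g1, g2, g3, g4, ?_⟩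
  intro f hf hB δ hδ η hη
  obtain ⟨c₀, hc₀, h1⟩ := hν δ hδ
  obtain ⟨c₁, hc₁, h2⟩ := Pool.Agent.Y969.SW.exc_circle' δ hδ
  set c := min (min c₀ c₁) (1 / 2) with hc
  have hc0 : 0 < c := by positivity
  have hcc0 : c ≤ c₀ := (min_le_left _ _).trans (min_le_left _ _)
  have hcc1 : c ≤ c₁ := (min_le_left _ _).trans (min_le_right _ _)
  have hc2 : c ≤ 1 / 2 := min_le_right _ _
  obtain ⟨N0, h3⟩ := h1 c hc0 hcc0 f hf hB (η / 2) (by positivity)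
  obtain ⟨C, hC, h4⟩ := h2 c hc0 hcc1
  obtain ⟨B, hB⟩ := hB
  have hB0 : 0 ≤ B := (abs_nonneg (f 0)).trans (hB 0)
  set γ := c₁ * (c * Real.log (1 / c)) with hγ
  have hγ0 : 0 < γ := by
    have : 0 < Real.log (1 / c) := Real.log_pos (by
      rw [lt_div_iff₀ hc0]
      linarith)
    positivity
  -- the exceptional set is small
  have hlim : Tendsto (fun x : ℝ => B * C * x ^ (-γ)) atTop (𝓝 0) := by
    have := (tendsto_rpow_neg_atTop hγ0).const_mul (B * C)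
    rwa [mul_zero] at this
  obtain ⟨x0, hx0⟩ := Filter.eventually_atTop.mp (hlim.eventually_lt_const (show (0 : ℝ) < η / 2 by positivity))
  obtain ⟨N1, hN1⟩ := exists_nat_ge (max x0 1 ^ 2)
  refine ⟨max (max N0 N1) 1, fun N hN H hH hNH => ?_⟩
  have hNN0 : N0 ≤ N := (le_max_left _ _).trans ((le_max_left _ _).trans hN)
  have hNN1 : N1 ≤ N := (le_max_right _ _).trans ((le_max_left _ _).trans hN)
  have hN1' : 1 ≤ N := (le_max_right _ _).trans hN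
  have hNr : (1 : ℝ) ≤ N := by exact_mod_cast hN1'
  have hHx : max x0 1 ≤ (H : ℝ) := by
    have e1 : (max x0 1) ^ 2 ≤ (N : ℝ) := hN1.trans (by exact_mod_cast hNN1)
    have e2 : max x0 1 ≤ (N : ℝ) ^ (1 / 2 : ℝ) := by
      rw [← Real.sqrt_eq_rpow]
      exact Real.le_sqrt_of_sq_le e1
    have e3 : (N : ℝ) ^ (1 / 2 : ℝ) ≤ (N : ℝ) ^ (1 / 2 + δ) :=
      Real.rpow_le_rpow_of_exponent_le hNr (by linarith)
    exact e2.trans (e3.trans hNH)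
  have hH1 : (1 : ℝ) ≤ H := (le_max_right _ _).trans hHx
  have hH0 : (0 : ℝ) < H := by linarith
  have h5 := h3 N hNN0 H hH hNH
  have h6 := h4 N H hN1' hNH
  have hsplit := Finset.sum_filter_add_sum_filter_not (Finset.Ico N (N + H))
    (fun n : ℕ => |Ec (n : ℝ)| ≤ (n : ℝ) ^ c) (fun n => f (Ec (n : ℝ)))
  rw [← hsplit]
  have h7 : |∑ n ∈ (Finset.Ico N (N + H)).filter (fun n : ℕ => ¬ |Ec (n : ℝ)| ≤ (n : ℝ) ^ c),
      f (Ec (n : ℝ))| ≤ η / 2 * H := by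
    have e1 : |∑ n ∈ (Finset.Ico N (N + H)).filter (fun n : ℕ => ¬ |Ec (n : ℝ)| ≤ (n : ℝ) ^ c),
      f (Ec (n : ℝ))| ≤ ∑ n ∈ (Finset.Ico N (N + H)).filter (fun n : ℕ => ¬ |Ec (n : ℝ)| ≤ (n : ℝ) ^ c), B :=
      (Finset.abs_sum_le_sum_abs _ _).trans (Finset.sum_le_sum fun n _ => hB _)
    have e2 : (((Finset.Ico N (N + H)).filter (fun n : ℕ => ¬ |Ec (n : ℝ)| ≤ (n : ℝ) ^ c)).card : ℝ) ≤
        C * (H : ℝ) ^ (1 - γ) := by
      refine le_trans ?_ h6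
      have : ((Finset.Ico N (N + H)).filter (fun n : ℕ => ¬ |Ec (n : ℝ)| ≤ (n : ℝ) ^ c)).card ≤
          ((Finset.Ico N (N + H)).filter (fun n : ℕ =>
            ∃ y : ℝ, (n : ℝ) ≤ y ∧ y < n + 1 ∧ y ^ c < |Ec y|)).card := by
        apply Finset.card_le_card
        intro n hn
        rw [Finset.mem_filter] at hn ⊢
        refine ⟨hn.1, (n : ℝ), le_rfl, by linarith, ?_⟩
        exact not_le.mp hn.2
      exact_mod_cast this
    have e3 : (H : ℝ) ^ (1 - γ) = H * (H : ℝ) ^ (-γ) := by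
      rw [show (1 - γ : ℝ) = 1 + -γ from by ring, Real.rpow_add hH0, Real.rpow_one]
    have e4 := hx0 (H : ℝ) ((le_max_left _ _).trans hHx)
    rw [Finset.sum_const, nsmul_eq_mul] at e1
    calc _ ≤ _ := e1
      _ ≤ C * (H : ℝ) ^ (1 - γ) * B := mul_le_mul_of_nonneg_right e2 hB0
      _ = H * (B * C * (H : ℝ) ^ (-γ)) := by rw [e3]; ring
      _ ≤ H * (η / 2) := mul_le_mul_of_nonneg_left e4.le hH0.le
      _ = _ := by ring
  calc _ = |(∑ n ∈ (Finset.Ico N (N + H)).filter (fun n : ℕ => |Ec (n : ℝ)| ≤ (n : ℝ) ^ c),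
        f (Ec (n : ℝ)) - H * ∫ x, f x ∂(ν : Measure ℝ)) +
        ∑ n ∈ (Finset.Ico N (N + H)).filter (fun n : ℕ => ¬ |Ec (n : ℝ)| ≤ (n : ℝ) ^ c),
        f (Ec (n : ℝ))| := by congr 1; ring
    _ ≤ η / 2 * H + η / 2 * H := (abs_add_le _ _).trans (add_le_add h5 h7)
    _ = η * H := by ring

/-- The average over the lattice points. -/
lemma law_lattice {ν : ProbabilityMeasure ℝ}
    (h : ∀ f : ℝ → ℝ, Continuous f → (∃ B : ℝ, ∀ x, |f x| ≤ B) → ∀ δ : ℝ, 0 < δ → ∀ η : ℝ, 0 < η →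
        ∃ N₀ : ℕ, ∀ N : ℕ, N₀ ≤ N → ∀ H : ℕ, H ≤ N → (N : ℝ) ^ (1 / 2 + δ) ≤ H →
          |∑ n ∈ Finset.Ico N (N + H), f (Ec (n : ℝ)) - H * ∫ x, f x ∂(ν : Measure ℝ)| ≤ η * H)
    {L : ℝ} {f : ℝ → ℝ} (hL : 0 ≤ L) (hf : ∀ x y, |f x - f y| ≤ L * |x - y|)
    (hB : ∃ B : ℝ, ∀ x, |f x| ≤ B) {δ : ℝ} (hδ : 0 < δ) {η : ℝ} (hη : 0 < η) :
    ∃ N₀ : ℕ, ∀ N : ℕ, N₀ ≤ N → ∀ H : ℕ, H ≤ N → (N : ℝ) ^ (1 / 2 + δ) ≤ H →
      |∑ n ∈ Finset.Ico N (N + H), f (Ec (n : ℝ)) - H * ∫ x, f x ∂(ν : Measure ℝ)| ≤ η * H ∧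
      |∑ n ∈ Finset.Ico N (N + H), rr n * f (Ec (n : ℝ)) - Real.pi * H * ∫ x, f x ∂(ν : Measure ℝ)| ≤
        η * H := by
  have hcont : Continuous f := by
    have : LipschitzWith ⟨L, hL⟩ f := LipschitzWith.of_dist_le_mul fun x y => by
      rw [Real.dist_eq, Real.dist_eq]
      exact hf x y
    exact this.continuous
  obtain ⟨C, hC, hwin⟩ := window_two (ε := 1 / 24) (by norm_num)
  have hpi := Real.pi_pos
  obtain ⟨N0, h1⟩ := h f hcont hB δ hδ (min η (η / (2 * Real.pi))) (by positivity)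
  have hf0 := abs_nonneg (f 0)
  set A := C * (|f 0| + L) with hA
  have hA0 : 0 ≤ A := by positivity
  have hlim : Tendsto (fun x : ℝ => A * x ^ (-(1 / 24) : ℝ)) atTop (𝓝 0) := by
    have := (tendsto_rpow_neg_atTop (show (0 : ℝ) < 1 / 24 by norm_num)).const_mul A
    rwa [mul_zero] at this
  obtain ⟨x0, hx0⟩ := Filter.eventually_atTop.mp (hlim.eventually_lt_const (show (0 : ℝ) < η / 4 by positivity))
  obtain ⟨N1, hN1⟩ := exists_nat_ge x0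
  refine ⟨max (max N0 N1) 2, fun N hN H hH hNH => ?_⟩
  have hNN0 : N0 ≤ N := (le_max_left _ _).trans ((le_max_left _ _).trans hN)
  have hNN1 : N1 ≤ N := (le_max_right _ _).trans ((le_max_left _ _).trans hN)
  have hN2 : 2 ≤ N := (le_max_right _ _).trans hN
  have hNr : (1 : ℝ) ≤ N := by
    have : 1 ≤ N := by omega
    exact_mod_cast this
  have hN0 : (0 : ℝ) < N := by linarith
  have hHr : (N : ℝ) ^ (1 / 2 : ℝ) ≤ H := by
    refine le_trans ?_ hNH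
    exact Real.rpow_le_rpow_of_exponent_le hNr (by linarith)
  have hH0 : (0 : ℝ) ≤ H := Nat.cast_nonneg _
  have h2 := h1 N hNN0 H hH hNH
  have h3 := hwin L f hL hf N H hN2 hH
  have h4 := hx0 (N : ℝ) (hN1.trans (by exact_mod_cast hNN1))
  constructor
  · exact h2.trans (mul_le_mul_of_nonneg_right (min_le_left _ _) hH0)
  · have e1 : ∑ n ∈ Finset.Ico N (N + H), rr n * f (Ec (n : ℝ)) - Real.pi * H * ∫ x, f x ∂(ν : Measure ℝ) =
        ∑ n ∈ Finset.Ico N (N + H), (rr n - Real.pi) * f (Ec (n : ℝ)) +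
        Real.pi * (∑ n ∈ Finset.Ico N (N + H), f (Ec (n : ℝ)) - H * ∫ x, f x ∂(ν : Measure ℝ)) := by
      simp only [sub_mul, Finset.sum_sub_distrib, mul_sub, Finset.mul_sum]
      ring
    rw [e1]
    have e2 : |∑ n ∈ Finset.Ico N (N + H), (rr n - Real.pi) * f (Ec (n : ℝ))| ≤ η / 2 * H := by
      refine h3.trans ?_
      have k1 : (N : ℝ) ^ (5 / 12 + 1 / 24 : ℝ) = (N : ℝ) ^ (1 / 2 : ℝ) * (N : ℝ) ^ (-(1 / 24) : ℝ) := by
        rw [← Real.rpow_add hN0]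
        norm_num
      have k2 : (N : ℝ) ^ (-(1 / 4) + 1 / 24 : ℝ) ≤ (N : ℝ) ^ (-(1 / 24) : ℝ) :=
        Real.rpow_le_rpow_of_exponent_le hNr (by norm_num)
      have k3 : 0 ≤ (N : ℝ) ^ (-(1 / 24) : ℝ) := by positivity
      calc A * ((N : ℝ) ^ (5 / 12 + 1 / 24 : ℝ) + H * (N : ℝ) ^ (-(1 / 4) + 1 / 24 : ℝ))
          ≤ A * (H * (N : ℝ) ^ (-(1 / 24) : ℝ) + H * (N : ℝ) ^ (-(1 / 24) : ℝ)) := by
            apply mul_le_mul_of_nonneg_left _ hA0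
            rw [k1]
            exact add_le_add (mul_le_mul_of_nonneg_right hHr k3) (mul_le_mul_of_nonneg_left k2 hH0)
        _ = 2 * H * (A * (N : ℝ) ^ (-(1 / 24) : ℝ)) := by ring
        _ ≤ 2 * H * (η / 4) := mul_le_mul_of_nonneg_left h4.le (by positivity)
        _ = η / 2 * H := by ring
    have e3 : |Real.pi * (∑ n ∈ Finset.Ico N (N + H), f (Ec (n : ℝ)) - H * ∫ x, f x ∂(ν : Measure ℝ))| ≤
        η / 2 * H := by
      rw [abs_mul, abs_of_pos hpi]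
      calc _ ≤ Real.pi * (min η (η / (2 * Real.pi)) * H) := mul_le_mul_of_nonneg_left h2 hpi.le
        _ ≤ Real.pi * (η / (2 * Real.pi) * H) := by
            apply mul_le_mul_of_nonneg_left _ hpi.le
            exact mul_le_mul_of_nonneg_right (min_le_right _ _) hH0
        _ = _ := by field_simp
    calc _ ≤ η / 2 * H + η / 2 * H := (abs_add_le _ _).trans (add_le_add e2 e3)
      _ = η * H := by ring

/-- A Lipschitz cut-off. -/
noncomputable def cut (a κ : ℝ) (x : ℝ) : ℝ := max 0 (min 1 ((a - x) / κ))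

lemma cut_bdd (a κ x : ℝ) : |cut a κ x| ≤ 1 := by
  unfold cut
  rw [abs_of_nonneg (le_max_left _ _)]
  exact max_le zero_le_one (min_le_left _ _)

lemma cut_nonneg (a κ x : ℝ) : 0 ≤ cut a κ x := le_max_left _ _

lemma cut_lip {a κ : ℝ} (hκ : 0 < κ) (x y : ℝ) : |cut a κ x - cut a κ y| ≤ 1 / κ * |x - y| := by
  have h1 : |cut a κ x - cut a κ y| ≤ |min 1 ((a - x) / κ) - min 1 ((a - y) / κ)| := by
    unfold cut
    rw [max_comm 0, max_comm 0]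
    exact abs_max_sub_max_le_abs _ _ _
  have h2 : |min 1 ((a - x) / κ) - min 1 ((a - y) / κ)| ≤ |(a - x) / κ - (a - y) / κ| := by
    have := abs_min_sub_min_le_max 1 ((a - x) / κ) 1 ((a - y) / κ)
    rwa [sub_self, abs_zero, max_eq_right (abs_nonneg _)] at this
  refine h1.trans (h2.trans (le_of_eq ?_))
  have h3 : (a - x) / κ - (a - y) / κ = (1 / κ) * (y - x) := by field_simp; ring
  rw [h3, abs_mul, abs_of_pos (by positivity), abs_sub_comm]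

lemma cut_one {a κ x : ℝ} (hκ : 0 < κ) (h : x ≤ a - κ) : cut a κ x = 1 := by
  have h1 : 1 ≤ (a - x) / κ := by
    rw [le_div_iff₀ hκ]
    linarith
  unfold cut
  rw [min_eq_left h1, max_eq_right zero_le_one]

lemma cut_zero {a κ x : ℝ} (hκ : 0 < κ) (h : a ≤ x) : cut a κ x = 0 := by
  have h1 : (a - x) / κ ≤ 0 := div_nonpos_of_nonpos_of_nonneg (by linarith) hκ.le
  unfold cut
  rw [max_eq_left]
  exact (min_le_right _ _).trans h1

lemma cut_integrable {ν : ProbabilityMeasure ℝ} {a κ : ℝ} :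
    Integrable (cut a κ) (ν : Measure ℝ) := by
  have hcont : Continuous (cut a κ) := by
    unfold cut
    fun_prop
  exact Integrable.of_bound hcont.aestronglyMeasurable 1 (Eventually.of_forall fun x => cut_bdd a κ x)

lemma cut_int_le {ν : ProbabilityMeasure ℝ} {a κ : ℝ} (hκ : 0 < κ) :
    ∫ x, cut a κ x ∂(ν : Measure ℝ) ≤ (ν : Measure ℝ).real (Set.Iic a) := by
  rw [← integral_indicator_one measurableSet_Iic]
  apply integral_mono cut_integrable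
  · exact (integrable_const (1 : ℝ)).indicator measurableSet_Iic
  · intro x
    by_cases hx : x ≤ a
    · rw [Set.indicator_of_mem (show x ∈ Set.Iic a from hx)]
      exact (le_abs_self _).trans (cut_bdd a κ x)
    · rw [Set.indicator_of_notMem (show x ∉ Set.Iic a from hx), cut_zero hκ (not_le.mp hx).le]

lemma le_cut_int {ν : ProbabilityMeasure ℝ} {a κ : ℝ} (hκ : 0 < κ) :
    (ν : Measure ℝ).real (Set.Iic (a - κ)) ≤ ∫ x, cut a κ x ∂(ν : Measure ℝ) := by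
  rw [← integral_indicator_one measurableSet_Iic]
  apply integral_mono _ cut_integrable
  · intro x
    by_cases hx : x ≤ a - κ
    · rw [Set.indicator_of_mem (show x ∈ Set.Iic (a - κ) from hx), cut_one hκ hx]
      exact le_rfl
    · rw [Set.indicator_of_notMem (show x ∉ Set.Iic (a - κ) from hx)]
      exact cut_nonneg a κ x
  · exact (integrable_const (1 : ℝ)).indicator measurableSet_Iic

/-- a short interval has small mass -/
lemma short_mass {ν : ProbabilityMeasure ℝ} {g : ℝ → ENNReal}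
    (hν : (ν : Measure ℝ) = volume.withDensity g) (x : ℝ) {η : ℝ} (hη : 0 < η) :
    ∃ κ : ℝ, 0 < κ ∧ (ν : Measure ℝ).real (Set.Iic (x + κ)) - (ν : Measure ℝ).real (Set.Iic (x - κ)) ≤ η := by
  have h0 : (ν : Measure ℝ) {x} = 0 := by
    rw [hν, withDensity_apply _ (measurableSet_singleton x)]
    simp
  have hint : ⋂ n : ℕ, Set.Ioc (x - 1 / ((n : ℝ) + 1)) (x + 1 / ((n : ℝ) + 1)) = {x} := by
    ext y
    simp only [Set.mem_iInter, Set.mem_Ioc, Set.mem_singleton_iff]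
    constructor
    · intro h
      by_contra hne
      have hpos : 0 < |y - x| := abs_pos.mpr (sub_ne_zero.mpr hne)
      obtain ⟨n, hn⟩ := exists_nat_one_div_lt hpos
      obtain ⟨h1, h2⟩ := h n
      have : |y - x| ≤ 1 / ((n : ℝ) + 1) := by
        rw [abs_le]
        constructor <;> linarith
      linarith
    · rintro rfl n
      have : 0 < 1 / ((n : ℝ) + 1) := by positivity
      constructor <;> linarith
  have hanti : Antitone fun n : ℕ => Set.Ioc (x - 1 / ((n : ℝ) + 1)) (x + 1 / ((n : ℝ) + 1)) := by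
    intro m n hmn
    have h1 : 1 / ((n : ℝ) + 1) ≤ 1 / ((m : ℝ) + 1) := by
      apply one_div_le_one_div_of_le (by positivity)
      have : (m : ℝ) ≤ n := by exact_mod_cast hmn
      linarith
    apply Set.Ioc_subset_Ioc <;> linarith
  have hlim := tendsto_measure_iInter_atTop (μ := (ν : Measure ℝ))
    (s := fun n : ℕ => Set.Ioc (x - 1 / ((n : ℝ) + 1)) (x + 1 / ((n : ℝ) + 1)))
    (fun n => (measurableSet_Ioc (a := x - 1 / ((n : ℝ) + 1)) (b := x + 1 / ((n : ℝ) + 1))).nullMeasurableSet)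
    hanti ⟨0, measure_ne_top _ _⟩
  rw [hint, h0] at hlim
  have hev := hlim.eventually_lt_const (show (0 : ENNReal) < ENNReal.ofReal η from ENNReal.ofReal_pos.mpr hη)
  obtain ⟨n, hn⟩ := hev.exists
  refine ⟨1 / ((n : ℝ) + 1), by positivity, ?_⟩
  have hκ : 0 < 1 / ((n : ℝ) + 1) := by positivity
  have h1 : Set.Iic (x - 1 / ((n : ℝ) + 1)) ∪ Set.Ioc (x - 1 / ((n : ℝ) + 1)) (x + 1 / ((n : ℝ) + 1)) =
      Set.Iic (x + 1 / ((n : ℝ) + 1)) := Set.Iic_union_Ioc_eq_Iic (by linarith)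
  have h2 : (ν : Measure ℝ).real (Set.Iic (x + 1 / ((n : ℝ) + 1))) =
      (ν : Measure ℝ).real (Set.Iic (x - 1 / ((n : ℝ) + 1))) +
      (ν : Measure ℝ).real (Set.Ioc (x - 1 / ((n : ℝ) + 1)) (x + 1 / ((n : ℝ) + 1))) := by
    rw [← h1]
    apply measureReal_union _ measurableSet_Ioc
    rw [Set.disjoint_left]
    intro y hy hy'
    exact absurd hy (not_le.mpr hy'.1)
  rw [h2, add_sub_cancel_left]
  exact ENNReal.toReal_le_of_le_ofReal hη.le hn.le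


/-- The distribution function over the lattice points. -/
lemma cdf_lattice {ν : ProbabilityMeasure ℝ} {g : ℝ → ENNReal}
    (hν : (ν : Measure ℝ) = volume.withDensity g)
    (h : ∀ f : ℝ → ℝ, Continuous f → (∃ B : ℝ, ∀ x, |f x| ≤ B) → ∀ δ : ℝ, 0 < δ → ∀ η : ℝ, 0 < η →
        ∃ N₀ : ℕ, ∀ N : ℕ, N₀ ≤ N → ∀ H : ℕ, H ≤ N → (N : ℝ) ^ (1 / 2 + δ) ≤ H →
          |∑ n ∈ Finset.Ico N (N + H), f (Ec (n : ℝ)) - H * ∫ x, f x ∂(ν : Measure ℝ)| ≤ η * H)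
    (x : ℝ) {δ : ℝ} (hδ : 0 < δ) {η : ℝ} (hη : 0 < η) :
    ∃ N₀ : ℕ, ∀ N : ℕ, N₀ ≤ N → ∀ H : ℕ, H ≤ N → (N : ℝ) ^ (1 / 2 + δ) ≤ H →
      |∑ n ∈ Finset.Ico N (N + H), rr n * (if Ec (n : ℝ) ≤ x then 1 else 0) -
        Real.pi * H * (ν : Measure ℝ).real (Set.Iic x)| ≤ η * H := by
  have hpi := Real.pi_pos
  obtain ⟨κ, hκ, hmass⟩ := short_mass hν x (η := η / (2 * Real.pi)) (by positivity)
  obtain ⟨N1, h1⟩ := law_lattice h (L := 1 / κ) (f := cut x κ) (by positivity) (cut_lip hκ)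
    ⟨1, cut_bdd x κ⟩ hδ (η := η / 2) (by positivity)
  obtain ⟨N2, h2⟩ := law_lattice h (L := 1 / κ) (f := cut (x + κ) κ) (by positivity) (cut_lip hκ)
    ⟨1, cut_bdd (x + κ) κ⟩ hδ (η := η / 2) (by positivity)
  refine ⟨max N1 N2, fun N hN H hH hNH => ?_⟩
  have k1 := (h1 N ((le_max_left _ _).trans hN) H hH hNH).2
  have k2 := (h2 N ((le_max_right _ _).trans hN) H hH hNH).2
  have hH0 : (0 : ℝ) ≤ H := Nat.cast_nonneg _
  have hr0 : ∀ n, 0 ≤ rr n := fun n => Nat.cast_nonneg _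
  have lo : ∑ n ∈ Finset.Ico N (N + H), rr n * cut x κ (Ec (n : ℝ)) ≤
      ∑ n ∈ Finset.Ico N (N + H), rr n * (if Ec (n : ℝ) ≤ x then 1 else 0) := by
    apply Finset.sum_le_sum
    intro n _
    apply mul_le_mul_of_nonneg_left _ (hr0 n)
    split_ifs with hx
    · exact (le_abs_self _).trans (cut_bdd x κ _)
    · rw [cut_zero hκ (not_le.mp hx).le]
  have hi : ∑ n ∈ Finset.Ico N (N + H), rr n * (if Ec (n : ℝ) ≤ x then 1 else 0) ≤
      ∑ n ∈ Finset.Ico N (N + H), rr n * cut (x + κ) κ (Ec (n : ℝ)) := by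
    apply Finset.sum_le_sum
    intro n _
    apply mul_le_mul_of_nonneg_left _ (hr0 n)
    split_ifs with hx
    · rw [cut_one hκ (by linarith)]
    · exact cut_nonneg _ _ _
  have i1 : (ν : Measure ℝ).real (Set.Iic (x - κ)) ≤ ∫ y, cut x κ y ∂(ν : Measure ℝ) := le_cut_int hκ
  have i2 : ∫ y, cut (x + κ) κ y ∂(ν : Measure ℝ) ≤ (ν : Measure ℝ).real (Set.Iic (x + κ)) := cut_int_le hκ
  have i3 : (ν : Measure ℝ).real (Set.Iic (x - κ)) ≤ (ν : Measure ℝ).real (Set.Iic x) :=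
    measureReal_mono (Set.Iic_subset_Iic.mpr (by linarith))
  have i4 : (ν : Measure ℝ).real (Set.Iic x) ≤ (ν : Measure ℝ).real (Set.Iic (x + κ)) :=
    measureReal_mono (Set.Iic_subset_Iic.mpr (by linarith))
  have hpH : 0 ≤ Real.pi * H := by positivity
  have j0 : Real.pi * H * (η / (2 * Real.pi)) = η / 2 * H := by field_simp
  have j1 : Real.pi * H * (ν : Measure ℝ).real (Set.Iic x) - η / 2 * H ≤
      Real.pi * H * ∫ y, cut x κ y ∂(ν : Measure ℝ) := by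
    rw [← j0, ← mul_sub]
    apply mul_le_mul_of_nonneg_left _ hpH
    linarith
  have j2 : Real.pi * H * ∫ y, cut (x + κ) κ y ∂(ν : Measure ℝ) ≤
      Real.pi * H * (ν : Measure ℝ).real (Set.Iic x) + η / 2 * H := by
    rw [← j0, ← mul_add]
    apply mul_le_mul_of_nonneg_left _ hpH
    linarith
  have k1' := (abs_le.mp k1).1
  have k2' := (abs_le.mp k2).2
  rw [abs_le]
  constructor <;> linarith

open Classical in
/-- Let `E(x) = (#{p ∈ ℤ² : |p|² ≤ x} - πx)/x^{1/4}` and `r(n) = #{z ∈ ℤ² : |z|² = n}`, so that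
`∑_{K ≤ n < K+H} r(n) f(E(n))` is the sum of `f(E(|z|²))` over the lattice points `z` of the annulus
`K ≤ |z|² < K + H`.
(1) For every `ε > 0` there is `C` such that for every Lipschitz function `f` with constant `L` and
`2 ≤ K`, `H ≤ K`:
`|∑_{K ≤ n < K+H} (r(n) - π) f(E(n))| ≤ C (|f(0)| + L) (K^{5/12+ε} + H K^{-1/4+ε})`.
(2) There is a law `ν` with an entire density and full support such that in all windows
`K ≤ n < K + H`, `K^{1/2+δ} ≤ H ≤ K`, `K → ∞`, both `H⁻¹ ∑ f(E(n))` and `(πH)⁻¹ ∑ r(n) f(E(n))` (the average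
over the lattice points of the annulus) tend to `∫ f dν`, for all bounded Lipschitz functions `f`, and
`(πH)⁻¹ ∑_{E(n) ≤ x} r(n)` tends to `ν((-∞, x])` for all real `x`. -/
theorem result (E : ℝ → ℝ)
    (hE : ∀ x : ℝ, E x =
      ((Nat.card {p : ℤ × ℤ // (p.1 : ℝ) ^ 2 + (p.2 : ℝ) ^ 2 ≤ x} : ℝ) - Real.pi * x) / x ^ (1 / 4 : ℝ))
    (r : ℕ → ℕ) (hr : ∀ m : ℕ, r m = Nat.card {p : ℤ × ℤ // p.1 ^ 2 + p.2 ^ 2 = (m : ℤ)}) :
    (∀ ε : ℝ, 0 < ε → ∃ C : ℝ, 0 < C ∧ ∀ (L : ℝ) (f : ℝ → ℝ), 0 ≤ L →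
      (∀ x y, |f x - f y| ≤ L * |x - y|) → ∀ K H : ℕ, 2 ≤ K → H ≤ K →
      |∑ n ∈ Finset.Ico K (K + H), ((r n : ℝ) - Real.pi) * f (E n)| ≤
        C * (|f 0| + L) * ((K : ℝ) ^ (5 / 12 + ε) + H * (K : ℝ) ^ (-(1 / 4) + ε))) ∧
    ∃ (ν : ProbabilityMeasure ℝ) (G : ℂ → ℂ),
      Differentiable ℂ G ∧ (∀ x : ℝ, 0 ≤ (G x).re ∧ (G x).im = 0) ∧
      (ν : Measure ℝ) = volume.withDensity (fun x : ℝ => ENNReal.ofReal (G x).re) ∧
      (∀ u v : ℝ, u < v → 0 < (ν : Measure ℝ) (Set.Ioo u v)) ∧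
      ∀ δ : ℝ, 0 < δ → ∀ η : ℝ, 0 < η →
      (∀ (L : ℝ) (f : ℝ → ℝ), 0 ≤ L → (∀ x y, |f x - f y| ≤ L * |x - y|) → (∃ B : ℝ, ∀ x, |f x| ≤ B) →
        ∃ K₀ : ℕ, ∀ K : ℕ, K₀ ≤ K → ∀ H : ℕ, H ≤ K → (K : ℝ) ^ (1 / 2 + δ) ≤ H →
          |∑ n ∈ Finset.Ico K (K + H), f (E n) - H * ∫ x, f x ∂(ν : Measure ℝ)| ≤ η * H ∧
          |∑ n ∈ Finset.Ico K (K + H), (r n : ℝ) * f (E n)
            - Real.pi * H * ∫ x, f x ∂(ν : Measure ℝ)| ≤ η * H) ∧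
      (∀ x : ℝ, ∃ K₀ : ℕ, ∀ K : ℕ, K₀ ≤ K → ∀ H : ℕ, H ≤ K → (K : ℝ) ^ (1 / 2 + δ) ≤ H →
          |∑ n ∈ (Finset.Ico K (K + H)).filter (fun n : ℕ => E n ≤ x), (r n : ℝ)
            - Real.pi * H * (ν : Measure ℝ).real (Set.Iic x)| ≤ η * H) := by
  have hEc : E = Ec := funext hE
  subst hEc
  have hrr : ∀ n, (r n : ℝ) = rr n := fun n => by
    unfold rr
    rw [hr]
  simp only [hrr]
  refine ⟨fun ε hε => window_two hε, ?_⟩
  obtain ⟨ν, G, g1, g2, g3, g4, hν⟩ := law_win r hr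
  refine ⟨ν, G, g1, g2, g3, g4, fun δ hδ η hη => ⟨?_, ?_⟩⟩
  · intro L f hL hf hB
    exact law_lattice hν hL hf hB hδ hη
  · intro x
    obtain ⟨K₀, h⟩ := cdf_lattice g3 hν x hδ hη
    refine ⟨K₀, fun K hK H hH hKH => ?_⟩
    have h1 := h K hK H hH hKH
    simp only [mul_ite, mul_one, mul_zero] at h1
    rw [← Finset.sum_filter] at h1
    convert h1

end Pool.Agent.Results.MP_fb29e9_nt.LatticePointRadii
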