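import Mathlib
import Pool.Agent.W24.CP.Two

/-!
# The circle problem along the primes, with a power saving

The error term `E_t(n) = #{p ∈ ℤ² : |p|² ≤ t n} - π t n` has typical size `n^{1/4}`.  Summed against the
Möbius function or over the primes (von Mangoldt weights), twisted by any additive character and restricted
to any residue class, it cancels by a power of `N`, uniformly over all frequencies and all residue classes.
-/

namespace Pool.Agent.Results.MP_fb29e9_nt.PowerSaving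

open Finset

/-- Residue classes from additive characters. -/
theorem restrict (f : ℕ → ℂ) (N : ℕ) {B : ℝ}
    (h : ∀ α : ℝ, ‖∑ n ∈ Icc 1 N, f n * Complex.exp (2 * Real.pi * Complex.I * (α * n))‖ ≤ B)
    (α : ℝ) {q : ℕ} (hq : 1 ≤ q) (a : ℕ) :
    ‖∑ n ∈ (Icc 1 N).filter (fun n => n ≡ a [MOD q]),
      f n * Complex.exp (2 * Real.pi * Complex.I * (α * n))‖ ≤ B := by
  have hq0 : q ≠ 0 := by omega
  have hqc : (q : ℂ) ≠ 0 := by exact_mod_cast hq0
  set ζ : ℂ := Complex.exp (2 * Real.pi * Complex.I / q) with hζ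
  have hprim : IsPrimitiveRoot ζ q := Complex.isPrimitiveRoot_exp q hq0
  have hdet : ∀ n : ℕ, (if n ≡ a [MOD q] then (1 : ℂ) else 0) =
      (1 / q) * ∑ j ∈ range q, ζ ^ (j * (n + (q - 1) * a)) := by
    intro n
    have hiff : q ∣ n + (q - 1) * a ↔ n ≡ a [MOD q] := by
      have h1 : n + (q - 1) * a + a = n + q * a := by
        have : (q - 1) * a + a = q * a := by
          obtain ⟨r, rfl⟩ : ∃ r, q = r + 1 := ⟨q - 1, by omega⟩
          rw [Nat.add_sub_cancel]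
          ring
        omega
      have h2 : n + q * a ≡ n [MOD q] := by
        unfold Nat.ModEq
        simp
      constructor
      · intro hd
        have h3 : n + (q - 1) * a ≡ 0 [MOD q] := (Nat.modEq_zero_iff_dvd).mpr hd
        have h4 := h3.add_right a
        rw [h1, zero_add] at h4
        exact h2.symm.trans h4
      · intro hm
        have h3 : n + (q - 1) * a + a ≡ 0 + a [MOD q] := by
          rw [h1, zero_add]
          exact h2.trans hm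
        exact (Nat.modEq_zero_iff_dvd).mp (Nat.ModEq.add_right_cancel' a h3)
    have hpow : ∀ j : ℕ, ζ ^ (j * (n + (q - 1) * a)) = (ζ ^ (n + (q - 1) * a)) ^ j := by
      intro j
      rw [← pow_mul, mul_comm]
    rw [sum_congr rfl fun j _ => hpow j]
    by_cases hd : q ∣ n + (q - 1) * a
    · rw [if_pos (hiff.mp hd), (hprim.pow_eq_one_iff_dvd _).mpr hd]
      simp only [one_pow, sum_const, card_range, nsmul_eq_mul, mul_one]
      field_simp
    · rw [if_neg (fun hm => hd (hiff.mpr hm))]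
      have hne : ζ ^ (n + (q - 1) * a) ≠ 1 := fun h1 => hd ((hprim.pow_eq_one_iff_dvd _).mp h1)
      rw [geom_sum_eq hne, ← pow_mul, mul_comm (n + (q - 1) * a) q, pow_mul, hprim.pow_eq_one, one_pow,
        sub_self, zero_div, mul_zero]
  have hζe : ∀ j n : ℕ, ζ ^ (j * (n + (q - 1) * a)) =
      ζ ^ (j * ((q - 1) * a)) * Complex.exp (2 * Real.pi * Complex.I * ((((j : ℝ) / q : ℝ)) * n)) := by
    intro j n
    rw [mul_add, pow_add, mul_comm]
    congr 1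
    rw [hζ, ← Complex.exp_nat_mul]
    congr 1
    push_cast
    field_simp
  have hζn : ∀ k : ℕ, ‖ζ ^ k‖ = 1 := by
    intro k
    rw [norm_pow, hprim.norm'_eq_one hq0, one_pow]
  have hmain : ∑ n ∈ (Icc 1 N).filter (fun n => n ≡ a [MOD q]),
      f n * Complex.exp (2 * Real.pi * Complex.I * (α * n)) =
      (1 / q) * ∑ j ∈ range q, ζ ^ (j * ((q - 1) * a)) *
        ∑ n ∈ Icc 1 N, f n * Complex.exp (2 * Real.pi * Complex.I * (((α + (j : ℝ) / q : ℝ) : ℂ) * n)) := by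
    rw [sum_filter]
    have e1 : ∀ n ∈ Icc 1 N, (if n ≡ a [MOD q] then
        f n * Complex.exp (2 * Real.pi * Complex.I * (α * n)) else 0) =
        ∑ j ∈ range q, (1 / q) * (ζ ^ (j * ((q - 1) * a)) *
          (f n * Complex.exp (2 * Real.pi * Complex.I * (((α + (j : ℝ) / q : ℝ) : ℂ) * n)))) := by
      intro n _
      have h1 : (if n ≡ a [MOD q] then
        f n * Complex.exp (2 * Real.pi * Complex.I * (α * n)) else 0) =
        (if n ≡ a [MOD q] then (1 : ℂ) else 0) *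
          (f n * Complex.exp (2 * Real.pi * Complex.I * (α * n))) := by
        split_ifs <;> simp
      rw [h1, hdet n, mul_sum, sum_mul]
      apply sum_congr rfl
      intro j _
      rw [hζe j n]
      have h2 : Complex.exp (2 * Real.pi * Complex.I * (((α + (j : ℝ) / q : ℝ) : ℂ) * n)) =
          Complex.exp (2 * Real.pi * Complex.I * ((((j : ℝ) / q : ℝ)) * n)) *
            Complex.exp (2 * Real.pi * Complex.I * (α * n)) := by
        rw [← Complex.exp_add]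
        congr 1
        push_cast
        ring
      rw [h2]
      ring
    rw [sum_congr rfl e1, sum_comm, mul_sum]
    apply sum_congr rfl
    intro j _
    rw [← mul_sum, ← mul_sum]
  rw [hmain, norm_mul]
  have hB : ‖∑ j ∈ range q, ζ ^ (j * ((q - 1) * a)) *
        ∑ n ∈ Icc 1 N, f n * Complex.exp (2 * Real.pi * Complex.I * (((α + (j : ℝ) / q : ℝ) : ℂ) * n))‖ ≤
      q * B := by
    refine (norm_sum_le _ _).trans ?_
    calc _ ≤ ∑ j ∈ range q, B := by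
          apply sum_le_sum
          intro j _
          rw [norm_mul, hζn, one_mul]
          exact h _
      _ = q * B := by simp
  have hqr : (0 : ℝ) < q := by exact_mod_cast (by omega : 0 < q)
  calc ‖(1 / q : ℂ)‖ * _ ≤ ‖(1 / q : ℂ)‖ * (q * B) := mul_le_mul_of_nonneg_left hB (norm_nonneg _)
    _ = B := by
        rw [norm_div, norm_one, Complex.norm_natCast]
        field_simp

open Pool.Agent.H383 Pool.Agent.H452R2.Win Pool.Agent.H425R3.JL Pool.Agent.H387R2.Vor in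
open Pool.Agent.H383.Gauss Pool.Agent.H383.Circ in
/-- The library theorem, for discs of squared radius `t n`. -/
theorem base {t : ℝ} (ht : 0 < t) : ∃ δ : ℝ, 0 < δ ∧ ∃ C : ℝ, ∀ (α : ℝ) (N : ℕ), 1 ≤ N →
      ‖∑ n ∈ Icc 1 N, ((ArithmeticFunction.moebius n : ℤ) : ℂ) * Complex.exp (2 * Real.pi * Complex.I * (α * n)) *
        (((Nat.card {p : ℤ × ℤ // (p.1 : ℝ) ^ 2 + (p.2 : ℝ) ^ 2 ≤ t * n} : ℝ) - Real.pi * (t * n) : ℝ) : ℂ)‖
          ≤ C * (N:ℝ) ^ (5/4 - δ) ∧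
      ‖∑ n ∈ Icc 1 N, ((ArithmeticFunction.vonMangoldt n : ℝ) : ℂ) * Complex.exp (2 * Real.pi * Complex.I * (α * n)) *
        (((Nat.card {p : ℤ × ℤ // (p.1 : ℝ) ^ 2 + (p.2 : ℝ) ^ 2 ≤ t * n} : ℝ) - Real.pi * (t * n) : ℝ) : ℂ)‖
          ≤ C * (N:ℝ) ^ (5/4 - δ) := by
  have hst : 0 < √t := Real.sqrt_pos.mpr ht
  have htp : (0 : ℝ) < t ^ (1 / 4 : ℝ) := by positivity
  obtain ⟨δ, hδ, C, hC⟩ := Pool.Agent.W24.CP.save_gen (E := En) ag_Bdw ag_zero wg_Wt En_SandW hst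
    (fun n => ((Nat.card {p : ℤ × ℤ // (p.1 : ℝ) ^ 2 + (p.2 : ℝ) ^ 2 ≤ t * n} : ℝ) - Real.pi * (t * n)) /
      t ^ (1 / 4 : ℝ)) (by
      intro n hn
      have hn0 : (0:ℝ) < n := by exact_mod_cast hn
      have e1 : √t * √(n : ℝ) = √(t * n) := (Real.sqrt_mul ht.le _).symm
      rw [e1]
      have e2 : En √(t * n) = Ec (t * n) := by
        have := Ec_eq (x := t * n) (by positivity)
        exact this
      rw [e2]
      unfold Ec
      have hp : (0:ℝ) < (n:ℝ) ^ (1/4:ℝ) := by positivity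
      rw [Real.mul_rpow ht.le hn0.le]
      field_simp)
  refine ⟨δ, hδ, t ^ (1 / 4 : ℝ) * C, fun α N hN => ?_⟩
  obtain ⟨h1, h2⟩ := hC α N hN
  have key : ∀ g : ℕ → ℂ, ‖∑ n ∈ Icc 1 N, g n * Complex.exp (2 * Real.pi * Complex.I * (α * n)) *
        (((((Nat.card {p : ℤ × ℤ // (p.1 : ℝ) ^ 2 + (p.2 : ℝ) ^ 2 ≤ t * n} : ℝ) - Real.pi * (t * n)) /
      t ^ (1 / 4 : ℝ) : ℝ)) : ℂ)‖ ≤ C * (N:ℝ) ^ (5/4 - δ) →
      ‖∑ n ∈ Icc 1 N, g n * Complex.exp (2 * Real.pi * Complex.I * (α * n)) *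
        (((Nat.card {p : ℤ × ℤ // (p.1 : ℝ) ^ 2 + (p.2 : ℝ) ^ 2 ≤ t * n} : ℝ) - Real.pi * (t * n) : ℝ) : ℂ)‖
          ≤ t ^ (1 / 4 : ℝ) * C * (N:ℝ) ^ (5/4 - δ) := by
    intro g hg
    have e : ∑ n ∈ Icc 1 N, g n * Complex.exp (2 * Real.pi * Complex.I * (α * n)) *
        (((Nat.card {p : ℤ × ℤ // (p.1 : ℝ) ^ 2 + (p.2 : ℝ) ^ 2 ≤ t * n} : ℝ) - Real.pi * (t * n) : ℝ) : ℂ) =
        ((t ^ (1 / 4 : ℝ) : ℝ) : ℂ) * ∑ n ∈ Icc 1 N, g n * Complex.exp (2 * Real.pi * Complex.I * (α * n)) *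
        (((((Nat.card {p : ℤ × ℤ // (p.1 : ℝ) ^ 2 + (p.2 : ℝ) ^ 2 ≤ t * n} : ℝ) - Real.pi * (t * n)) /
      t ^ (1 / 4 : ℝ) : ℝ)) : ℂ) := by
      rw [mul_sum]
      apply sum_congr rfl
      intro n _
      have hc : ((t ^ (1 / 4 : ℝ) : ℝ) : ℂ) ≠ 0 := by exact_mod_cast htp.ne'
      rw [Complex.ofReal_div]
      field_simp
    rw [e, norm_mul, Complex.norm_real, Real.norm_eq_abs, abs_of_pos htp]
    calc _ ≤ t ^ (1 / 4 : ℝ) * (C * (N:ℝ) ^ (5/4 - δ)) := mul_le_mul_of_nonneg_left hg htp.le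
      _ = _ := by ring
  exact ⟨key _ h1, key _ h2⟩

/-- For every real `t > 0` there are `δ > 0` and `C` such that for all real `α`, all `N ≥ 1` and all residue
classes `a mod q`, the sums of `μ(n) e^{2πiαn} E_t(n)` and of `Λ(n) e^{2πiαn} E_t(n)` over the `n ≤ N` with
`n ≡ a mod q` are at most `C N^{5/4 - δ}` in absolute value, where `E_t(n) = #{x² + y² ≤ tn} - πtn`. -/
theorem result (t : ℝ) (ht : 0 < t) : ∃ δ : ℝ, 0 < δ ∧ ∃ C : ℝ, ∀ (α : ℝ) (N q a : ℕ), 1 ≤ N → 1 ≤ q →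
      ‖∑ n ∈ (Icc 1 N).filter (fun n => n ≡ a [MOD q]),
        ((ArithmeticFunction.moebius n : ℤ) : ℂ) * Complex.exp (2 * Real.pi * Complex.I * (α * n)) *
        (((Nat.card {p : ℤ × ℤ // (p.1 : ℝ) ^ 2 + (p.2 : ℝ) ^ 2 ≤ t * n} : ℝ) - Real.pi * (t * n) : ℝ) : ℂ)‖
          ≤ C * (N:ℝ) ^ (5/4 - δ) ∧
      ‖∑ n ∈ (Icc 1 N).filter (fun n => n ≡ a [MOD q]),
        ((ArithmeticFunction.vonMangoldt n : ℝ) : ℂ) * Complex.exp (2 * Real.pi * Complex.I * (α * n)) *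
        (((Nat.card {p : ℤ × ℤ // (p.1 : ℝ) ^ 2 + (p.2 : ℝ) ^ 2 ≤ t * n} : ℝ) - Real.pi * (t * n) : ℝ) : ℂ)‖
          ≤ C * (N:ℝ) ^ (5/4 - δ) := by
  obtain ⟨δ, hδ, C, hC⟩ := base ht
  refine ⟨δ, hδ, C, fun α N q a hN hq => ?_⟩
  have key : ∀ g : ℕ → ℂ, (∀ α : ℝ, ‖∑ n ∈ Icc 1 N, g n * Complex.exp (2 * Real.pi * Complex.I * (α * n)) *
        (((Nat.card {p : ℤ × ℤ // (p.1 : ℝ) ^ 2 + (p.2 : ℝ) ^ 2 ≤ t * n} : ℝ) - Real.pi * (t * n) : ℝ) : ℂ)‖
          ≤ C * (N:ℝ) ^ (5/4 - δ)) →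
      ‖∑ n ∈ (Icc 1 N).filter (fun n => n ≡ a [MOD q]),
        g n * Complex.exp (2 * Real.pi * Complex.I * (α * n)) *
        (((Nat.card {p : ℤ × ℤ // (p.1 : ℝ) ^ 2 + (p.2 : ℝ) ^ 2 ≤ t * n} : ℝ) - Real.pi * (t * n) : ℝ) : ℂ)‖
          ≤ C * (N:ℝ) ^ (5/4 - δ) := by
    intro g hg
    have h1 := restrict (fun n => g n *
      (((Nat.card {p : ℤ × ℤ // (p.1 : ℝ) ^ 2 + (p.2 : ℝ) ^ 2 ≤ t * n} : ℝ) - Real.pi * (t * n) : ℝ) : ℂ)) N
      (B := C * (N:ℝ) ^ (5/4 - δ)) (by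
        intro β
        refine le_trans (le_of_eq ?_) (hg β)
        congr 1
        apply sum_congr rfl
        intro n _
        ring) α hq a
    refine le_trans (le_of_eq ?_) h1
    congr 1
    apply sum_congr rfl
    intro n _
    ring
  exact ⟨key _ fun β => (hC β N hN).1, key _ fun β => (hC β N hN).2⟩

end Pool.Agent.Results.MP_fb29e9_nt.PowerSaving
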